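import Pool.Graph.R_seed8.TH265.RB.Main

/-!
# Self-convolutions with a mean bounded from below

`X` is a sequence of non-negative real numbers, `cv X m = ∑_{i + j = m} X_i X_j`.  Suppose that
`cv X (m + 1) ≥ lam + G m - G (m + 1) - d m` with small `d` and with a potential `G ≥ 0`.
Then `(∑_{i ≤ n} X_i)^2 ≥ 1.1253 lam n` approximately.  The certificates of
`Pool.Agent.TH265.RB` are used.
-/

set_option autoImplicit false
set_option linter.unusedSectionVars false

open Finset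

namespace Pool.Agent.H90.NZ

open Pool.Agent.TH265.RB Pool.Agent.H394R2.Ones

/-- partial sums -/
noncomputable def tot (X : ℕ → ℝ) (n : ℕ) : ℝ := ∑ i ∈ range (n + 1), X i

/-- the convolution -/
noncomputable def cv (X : ℕ → ℝ) (m : ℕ) : ℝ := ∑ p ∈ antidiagonal m, X p.1 * X p.2

/-- exponential sum -/
noncomputable def FF (X : ℕ → ℝ) (n : ℕ) (w : ℂ) : ℂ := ∑ i ∈ range (n + 1), (X i : ℂ) * w ^ i

/-- pairs with a large sum -/
noncomputable def QQ (X : ℕ → ℝ) (n : ℕ) : ℝ :=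
  ∑ p ∈ (range (n + 1) ×ˢ range (n + 1)).filter (fun p => ¬ p.1 + p.2 ≤ n), X p.1 * X p.2

section
variable {X : ℕ → ℝ} (hX : ∀ i, 0 ≤ X i) (hX0 : X 0 = 0)

include hX in
lemma tot_nonneg (n : ℕ) : 0 ≤ tot X n := sum_nonneg fun i _ => hX i

include hX in
lemma tot_mono {m n : ℕ} (h : m ≤ n) : tot X m ≤ tot X n :=
  sum_le_sum_of_subset_of_nonneg (range_mono (by omega)) fun i _ _ => hX i

include hX in
lemma cv_nonneg (m : ℕ) : 0 ≤ cv X m := sum_nonneg fun p _ => mul_nonneg (hX _) (hX _)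

include hX0 in
lemma cv_zero : cv X 0 = 0 := by simp [cv, hX0]

lemma tot_sq (n : ℕ) : tot X n ^ 2 = ∑ m ∈ range (n + 1), cv X m + QQ X n := by
  have h := pair_sum n (fun i j => X i * X j)
  rw [sum_product] at h
  unfold tot cv QQ
  rw [← h, sq, sum_mul_sum]

lemma FF_sq (n : ℕ) {w : ℂ} (hw : ‖w‖ = 1) (hX : ∀ i, 0 ≤ X i) :
    ‖FF X n w‖ ^ 2 ≤ ‖∑ m ∈ range (n + 1), (cv X m : ℂ) * w ^ m‖ + QQ X n := by
  have h := pair_sum n (fun i j => ((X i : ℂ) * w ^ i) * ((X j : ℂ) * w ^ j))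
  rw [sum_product] at h
  have h1 : FF X n w ^ 2 = ∑ m ∈ range (n + 1), (cv X m : ℂ) * w ^ m +
      ∑ p ∈ (range (n + 1) ×ˢ range (n + 1)).filter (fun p => ¬ p.1 + p.2 ≤ n),
        ((X p.1 : ℂ) * w ^ p.1) * ((X p.2 : ℂ) * w ^ p.2) := by
    unfold FF
    rw [sq, sum_mul_sum, h]
    congr 1
    refine sum_congr rfl fun m _ => ?_
    unfold cv
    push_cast
    rw [sum_mul]
    refine sum_congr rfl fun p hp => ?_
    rw [HasAntidiagonal.mem_antidiagonal] at hp
    rw [← hp, pow_add]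
    ring
  rw [← norm_pow, h1]
  refine (norm_add_le _ _).trans (add_le_add le_rfl ?_)
  refine (norm_sum_le _ _).trans (le_of_eq ?_)
  unfold QQ
  refine sum_congr rfl fun p _ => ?_
  rw [norm_mul, norm_mul, norm_mul, norm_pow, norm_pow, hw, one_pow, one_pow, mul_one, mul_one,
    Complex.norm_real, Complex.norm_real, Real.norm_eq_abs, Real.norm_eq_abs,
    abs_of_nonneg (hX _), abs_of_nonneg (hX _)]

/-- the hypotheses up to `n` -/
structure Pot (X : ℕ → ℝ) (lam D Gb : ℝ) (G d : ℕ → ℝ) (n : ℕ) : Prop where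
  G0 : ∀ m, 0 ≤ G m
  d0 : ∀ m, 0 ≤ d m
  low : ∀ m < n, lam + G m - G (m + 1) - d m ≤ cv X (m + 1)
  Gle : ∀ m ≤ n, G m ≤ Gb
  dsum : ∑ m ∈ range n, d m ≤ D

variable {lam D Gb : ℝ} {G d : ℕ → ℝ} {n : ℕ}

lemma telesc (a : ℕ → ℝ) (n : ℕ) : ∑ m ∈ range n, (a m - a (m + 1)) = a 0 - a n := by
  induction n with
  | zero => simp
  | succ n ih => rw [sum_range_succ, ih]; ring

lemma Pot.R_ge (h : Pot X lam D Gb G d n) (hX : ∀ i, 0 ≤ X i) :
    lam * n - Gb - D ≤ ∑ m ∈ range (n + 1), cv X m := by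
  have h1 : ∑ m ∈ range n, (lam + G m - G (m + 1) - d m) ≤ ∑ m ∈ range n, cv X (m + 1) :=
    sum_le_sum fun m hm => h.low m (mem_range.1 hm)
  have h2 : ∑ m ∈ range n, (lam + G m - G (m + 1) - d m) =
      lam * n + (G 0 - G n) - ∑ m ∈ range n, d m := by
    have hc : lam * n = ∑ _m ∈ range n, lam := by
      rw [sum_const, card_range, nsmul_eq_mul]; ring
    rw [← telesc G n, hc, ← sum_add_distrib, ← sum_sub_distrib]
    exact sum_congr rfl fun m _ => by ring
  rw [sum_range_succ']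
  have h3 := h.G0 0
  have h4 := h.Gle n le_rfl
  have h5 := h.dsum
  have h6 := cv_nonneg hX 0
  linarith

lemma telesc_pow (a : ℕ → ℝ) (w : ℂ) (n : ℕ) :
    ∑ m ∈ range n, ((a m - a (m + 1) : ℝ) : ℂ) * w ^ (m + 1) =
      (w - 1) * ∑ m ∈ range n, (a m : ℂ) * w ^ m + a 0 - a n * w ^ n := by
  induction n with
  | zero => simp
  | succ n ih =>
    rw [sum_range_succ, ih, sum_range_succ]
    push_cast
    ring

lemma Pot.norm_sum (h : Pot X lam D Gb G d n) (hX0 : X 0 = 0)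
    (hn : 0 < n) {w : ℂ} (hw1 : ‖w‖ = 1) (hwn : w ^ n = 1) (hw : w ≠ 1) (hwd : ‖w - 1‖ * n ≤ 38) :
    ‖∑ m ∈ range (n + 1), (cv X m : ℂ) * w ^ m‖ ≤
      ∑ m ∈ range (n + 1), cv X m - lam * n + 2 * D + 40 * Gb := by
  have hwp : ∀ m, ‖w ^ m‖ = 1 := fun m => by rw [norm_pow, hw1, one_pow]
  have hgeom : ∑ m ∈ range n, w ^ m = 0 := by
    have h := mul_neg_geom_sum w n
    rw [hwn, sub_self] at h
    rcases mul_eq_zero.mp h with h | h
    · exact absurd (by linear_combination -h) hw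
    · exact h
  set u : ℕ → ℝ := fun m => cv X (m + 1) - (lam + G m - G (m + 1) - d m) with hu
  have hu0 : ∀ m < n, 0 ≤ u m := fun m hm => by have := h.low m hm; simp only [hu]; linarith
  have e1 : ∑ m ∈ range (n + 1), (cv X m : ℂ) * w ^ m =
      ∑ m ∈ range n, (u m : ℂ) * w ^ (m + 1) - ∑ m ∈ range n, (d m : ℂ) * w ^ (m + 1) +
        ∑ m ∈ range n, ((G m - G (m + 1) : ℝ) : ℂ) * w ^ (m + 1) := by
    rw [sum_range_succ', cv_zero hX0]
    have h1 : ∑ m ∈ range n, w ^ (m + 1) = 0 := by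
      have : ∑ m ∈ range n, w ^ (m + 1) = w * ∑ m ∈ range n, w ^ m := by
        rw [mul_sum]; exact sum_congr rfl fun m _ => by ring
      rw [this, hgeom, mul_zero]
    have h2 : ∑ m ∈ range n, (cv X (m + 1) : ℂ) * w ^ (m + 1) =
        (lam : ℂ) * ∑ m ∈ range n, w ^ (m + 1) + (∑ m ∈ range n, (u m : ℂ) * w ^ (m + 1) -
          ∑ m ∈ range n, (d m : ℂ) * w ^ (m + 1) +
        ∑ m ∈ range n, ((G m - G (m + 1) : ℝ) : ℂ) * w ^ (m + 1)) := by
      rw [mul_sum, ← sum_sub_distrib, ← sum_add_distrib, ← sum_add_distrib]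
      refine sum_congr rfl fun m _ => ?_
      simp only [hu]
      push_cast
      ring
    rw [h2, h1]
    push_cast
    ring
  have hnR : (0 : ℝ) < n := by exact_mod_cast hn
  have n1 : ‖∑ m ∈ range n, (u m : ℂ) * w ^ (m + 1)‖ ≤ ∑ m ∈ range n, u m := by
    refine (norm_sum_le _ _).trans (sum_le_sum fun m hm => ?_)
    rw [norm_mul, hwp, mul_one, Complex.norm_real, Real.norm_eq_abs,
      abs_of_nonneg (hu0 m (mem_range.1 hm))]
  have n2 : ‖∑ m ∈ range n, (d m : ℂ) * w ^ (m + 1)‖ ≤ D := by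
    refine ((norm_sum_le _ _).trans (sum_le_sum fun m hm => ?_)).trans h.dsum
    rw [norm_mul, hwp, mul_one, Complex.norm_real, Real.norm_eq_abs, abs_of_nonneg (h.d0 m)]
  have n3 : ‖∑ m ∈ range n, (G m : ℂ) * w ^ m‖ ≤ n * Gb := by
    refine (norm_sum_le _ _).trans ((sum_le_sum (g := fun _ => Gb) fun m hm => ?_).trans ?_)
    · rw [norm_mul, hwp, mul_one, Complex.norm_real, Real.norm_eq_abs, abs_of_nonneg (h.G0 m)]
      exact h.Gle m (mem_range.1 hm).le
    · rw [sum_const, card_range, nsmul_eq_mul]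
  have hGb : 0 ≤ Gb := (h.G0 0).trans (h.Gle 0 (Nat.zero_le _))
  have n4 : ‖∑ m ∈ range n, ((G m - G (m + 1) : ℝ) : ℂ) * w ^ (m + 1)‖ ≤ 38 * Gb + G 0 + G n := by
    rw [telesc_pow, hwn, mul_one]
    refine (norm_sub_le _ _).trans (add_le_add ((norm_add_le _ _).trans (add_le_add ?_ ?_)) ?_)
    · rw [norm_mul]
      calc ‖w - 1‖ * ‖∑ m ∈ range n, (G m : ℂ) * w ^ m‖ ≤ ‖w - 1‖ * (n * Gb) :=
            mul_le_mul_of_nonneg_left n3 (norm_nonneg _)
        _ = (‖w - 1‖ * n) * Gb := by ring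
        _ ≤ 38 * Gb := mul_le_mul_of_nonneg_right hwd hGb
    · rw [Complex.norm_real, Real.norm_eq_abs, abs_of_nonneg (h.G0 0)]
    · rw [Complex.norm_real, Real.norm_eq_abs, abs_of_nonneg (h.G0 n)]
  have hus : ∑ m ∈ range n, u m =
      ∑ m ∈ range (n + 1), cv X m - lam * n - (G 0 - G n) + ∑ m ∈ range n, d m := by
    have hc : lam * n = ∑ _m ∈ range n, lam := by
      rw [sum_const, card_range, nsmul_eq_mul]; ring
    rw [sum_range_succ', cv_zero hX0, ← telesc G n, hc, add_zero, ← sum_sub_distrib,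
      ← sum_sub_distrib, ← sum_add_distrib]
    exact sum_congr rfl fun m _ => by simp only [hu]; ring
  rw [e1]
  refine (norm_add_le _ _).trans ((add_le_add (norm_sub_le _ _) n4).trans ?_)
  have h4 := h.Gle n le_rfl
  have h5 := h.dsum
  linarith

lemma Pot.F_bound (h : Pot X lam D Gb G d n) (hX : ∀ i, 0 ≤ X i) (hX0 : X 0 = 0)
    {θ : ℝ} (h0 : 0 < θ) (h1 : θ < 2 * Real.pi)
    (hθ : ∃ j : ℕ, θ * n = j * (2 * Real.pi)) (h2 : θ * n ≤ 38) (hn : 0 < n) :
    ‖FF X n (Complex.exp (Complex.I * (θ : ℂ)))‖ ^ 2 ≤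
      tot X n ^ 2 - lam * n + 2 * D + 40 * Gb := by
  set w : ℂ := Complex.exp (Complex.I * (θ : ℂ)) with hw
  have hw1 : ‖w‖ = 1 := by
    rw [hw, mul_comm]
    exact Complex.norm_exp_ofReal_mul_I θ
  have hwn : w ^ n = 1 := by
    obtain ⟨j, hj⟩ := hθ
    rw [hw, ← Complex.exp_nat_mul, Complex.exp_eq_one_iff]
    refine ⟨j, ?_⟩
    have : ((θ * n : ℝ) : ℂ) = ((j * (2 * Real.pi) : ℝ) : ℂ) := by rw [hj]
    push_cast at this ⊢
    linear_combination Complex.I * this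
  have hne : w ≠ 1 := by
    intro h
    rw [hw, Complex.exp_eq_one_iff] at h
    obtain ⟨m, hm⟩ := h
    have h3 : θ = m * (2 * Real.pi) := by
      have h4 : Complex.I * (θ : ℂ) = Complex.I * ((m * (2 * Real.pi) : ℝ) : ℂ) := by
        rw [hm]; push_cast; ring
      have h5 := mul_left_cancel₀ Complex.I_ne_zero h4
      exact_mod_cast h5
    have hpi := Real.pi_pos
    have h6 : (0 : ℝ) < m := by
      by_contra hcon
      have : (m : ℝ) * (2 * Real.pi) ≤ 0 := by nlinarith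
      linarith
    have h7 : (m : ℝ) < 1 := by
      by_contra hcon
      have : 1 * (2 * Real.pi) ≤ (m : ℝ) * (2 * Real.pi) := by nlinarith
      linarith
    have h8 : (0 : ℤ) < m := by exact_mod_cast h6
    have h9 : m < (1 : ℤ) := by exact_mod_cast h7
    omega
  have hdd : ‖w - 1‖ * n ≤ 38 := by
    have h3 : ‖w - 1‖ ≤ θ := by
      have := Real.norm_exp_I_mul_ofReal_sub_one_le (x := θ)
      rw [Real.norm_eq_abs, abs_of_pos h0] at this
      exact this
    have h4 : (0 : ℝ) ≤ n := Nat.cast_nonneg _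
    nlinarith
  have h3 := h.norm_sum hX0 hn hw1 hwn hne hdd
  have h4 := FF_sq (X := X) n hw1 hX
  have h5 := tot_sq (X := X) n
  linarith

/-- the lower bound tested with a function -/
lemma Pot.cover (hX : ∀ i, 0 ≤ X i) (hX0 : X 0 = 0) {q : ℕ} (hq : 0 < q)
    (h : Pot X lam D Gb G d (40 * q)) (hlam : 0 ≤ lam)
    (f : ℕ → ℤ) (hf0 : ∀ s, 0 ≤ f s) (hf1 : ∀ s, f s < 262144)
    (hf2 : ∀ s, 40 ≤ s → f s = 0) (hps : ∀ s < 40, 0 ≤ psi f s) :
    lam * (q * ((psi f 0 + 2 * ∑ s ∈ range 39, psi f (s + 1) : ℤ) : ℝ) / 8) - 262144 * lam -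
      262144 * D - 40 * 262144 * Gb ≤
      ∑ c ∈ range 41, ∑ d ∈ range 41, pw X q c * pw X q d * ((f (c + d) : ℤ) : ℝ) := by
  have h1 := pairs_ge f X hX q hq
  refine le_trans ?_ h1
  have h2 := pair_sum (40 * q) (fun i j => X i * X j * tg f q (i + j))
  rw [sum_product] at h2
  have h3 : ∑ i ∈ range (40 * q + 1), ∑ j ∈ range (40 * q + 1), X i * X j * tg f q (i + j) =
      ∑ m ∈ range (40 * q + 1), cv X m * tg f q m +
        ∑ p ∈ (range (40 * q + 1) ×ˢ range (40 * q + 1)).filter (fun p => ¬ p.1 + p.2 ≤ 40 * q),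
          X p.1 * X p.2 * tg f q (p.1 + p.2) := by
    rw [h2]
    congr 1
    refine sum_congr rfl fun m _ => ?_
    unfold cv
    rw [sum_mul]
    refine sum_congr rfl fun p hp => ?_
    rw [HasAntidiagonal.mem_antidiagonal] at hp
    rw [hp]
  rw [h3]
  have h4 : 0 ≤ ∑ p ∈ (range (40 * q + 1) ×ˢ range (40 * q + 1)).filter
      (fun p => ¬ p.1 + p.2 ≤ 40 * q), X p.1 * X p.2 * tg f q (p.1 + p.2) :=
    sum_nonneg fun p _ => mul_nonneg (mul_nonneg (hX _) (hX _)) (tg_nonneg f hf0 hf2 hps q hq _)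
  set g := tg f q with hg
  have g0 : ∀ m, 0 ≤ g m := tg_nonneg f hf0 hf2 hps q hq
  have g1 : ∀ m, g m ≤ 262144 := tg_le f hf1 q hq
  have g2 : ∀ m, -(262144 / q) ≤ g (m + 1) - g m := tg_step_ge f hf0 hf1 hf2 hps q hq
  have g3 : g (40 * q) = 0 := by
    rw [hg]
    unfold tg
    have e1 : 40 * q / q = 40 := Nat.mul_div_cancel _ hq
    rw [e1, psi_far f hf0 hf2 40 le_rfl, psi_far f hf0 hf2 (40 + 1) (by norm_num)]
    simp
  have h6 := tg_sum_ge f hf0 hf2 hps q hq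
  rw [← hg] at h6
  set P : ℝ := ((psi f 0 + 2 * ∑ s ∈ range 39, psi f (s + 1) : ℤ) : ℝ) with hP
  -- partial summation
  have h7 : ∑ m ∈ range (40 * q + 1), cv X m * g m =
      ∑ m ∈ range (40 * q), cv X (m + 1) * g (m + 1) := by
    rw [sum_range_succ', cv_zero hX0, zero_mul, add_zero]
  have h8 : ∑ m ∈ range (40 * q), (lam + G m - G (m + 1) - d m) * g (m + 1) ≤
      ∑ m ∈ range (40 * q), cv X (m + 1) * g (m + 1) :=
    sum_le_sum fun m hm => mul_le_mul_of_nonneg_right (h.low m (mem_range.1 hm)) (g0 _)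
  have h9 : ∀ N : ℕ, ∑ m ∈ range N, (G m - G (m + 1)) * g (m + 1) =
      ∑ m ∈ range N, G m * (g (m + 1) - g m) + G 0 * g 0 - G N * g N := by
    intro N
    induction N with
    | zero => simp
    | succ N ih => rw [sum_range_succ, ih, sum_range_succ]; ring
  have h10 : ∑ m ∈ range (40 * q), (lam + G m - G (m + 1) - d m) * g (m + 1) =
      lam * ∑ m ∈ range (40 * q), g (m + 1) + ∑ m ∈ range (40 * q), (G m - G (m + 1)) * g (m + 1) -
        ∑ m ∈ range (40 * q), d m * g (m + 1) := by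
    rw [mul_sum, ← sum_add_distrib, ← sum_sub_distrib]
    exact sum_congr rfl fun m _ => by ring
  have h11 : ∑ m ∈ range (40 * q), d m * g (m + 1) ≤ 262144 * D := by
    calc ∑ m ∈ range (40 * q), d m * g (m + 1) ≤ ∑ m ∈ range (40 * q), d m * 262144 :=
          sum_le_sum fun m _ => mul_le_mul_of_nonneg_left (g1 _) (h.d0 m)
      _ = 262144 * ∑ m ∈ range (40 * q), d m := by rw [← sum_mul, mul_comm]
      _ ≤ 262144 * D := mul_le_mul_of_nonneg_left h.dsum (by norm_num)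
  have hqR : (0 : ℝ) < q := by exact_mod_cast hq
  have hGb : 0 ≤ Gb := (h.G0 0).trans (h.Gle 0 (Nat.zero_le _))
  have h12 : -(40 * 262144 * Gb) ≤ ∑ m ∈ range (40 * q), G m * (g (m + 1) - g m) := by
    have : ∑ m ∈ range (40 * q), -(262144 / (q : ℝ) * Gb) ≤
        ∑ m ∈ range (40 * q), G m * (g (m + 1) - g m) := by
      refine sum_le_sum fun m hm => ?_
      have a1 : G m * -(262144 / (q : ℝ)) ≤ G m * (g (m + 1) - g m) :=
        mul_le_mul_of_nonneg_left (g2 m) (h.G0 m)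
      have a2 : G m * (262144 / (q : ℝ)) ≤ Gb * (262144 / (q : ℝ)) :=
        mul_le_mul_of_nonneg_right (h.Gle m (mem_range.1 hm).le) (by positivity)
      linarith
    refine le_trans (le_of_eq ?_) this
    rw [sum_const, card_range, nsmul_eq_mul]
    push_cast
    field_simp
  have h13 : ∑ m ∈ range (40 * q), g m - 262144 ≤ ∑ m ∈ range (40 * q), g (m + 1) := by
    have h14 : ∀ N : ℕ, ∑ m ∈ range N, g (m + 1) + g 0 = ∑ m ∈ range N, g m + g N := by
      intro N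
      induction N with
      | zero => simp
      | succ N ih => rw [sum_range_succ, sum_range_succ]; linarith
    have h15 := h14 (40 * q)
    have h16 := g1 0
    rw [g3] at h15
    linarith
  have h17 := h9 (40 * q)
  rw [g3, mul_zero, sub_zero] at h17
  have h18 : 0 ≤ G 0 * g 0 := mul_nonneg (h.G0 0) (g0 0)
  have h19 : lam * (q * P / 8) - 262144 * lam ≤ lam * ∑ m ∈ range (40 * q), g (m + 1) := by
    have := mul_le_mul_of_nonneg_left (h6.trans (le_of_eq rfl)) hlam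
    have h20 := mul_le_mul_of_nonneg_left h13 hlam
    linarith
  linarith

lemma pw_total' (X : ℕ → ℝ) {q : ℕ} (hq : 0 < q) : ∑ c ∈ range 41, pw X q c = tot X (40 * q) := by
  have h := pw_sum (M := ℝ) X q hq (fun _ => (1 : ℝ))
  simp only [smul_eq_mul, mul_one] at h
  rw [h]
  unfold tot
  exact sum_congr rfl fun i _ => by ring

lemma link' (hX : ∀ i, 0 ≤ X i) {q : ℕ} (hq : 0 < q) (k : ℕ) :
    ‖∑ c ∈ range 41, pw X q c • tau (k * c)‖ ≤
    ‖FF X (40 * q) (Complex.exp (Complex.I * ((k * (Real.pi / 20) / q : ℝ) : ℂ)))‖ +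
      ((k * (Real.pi / 20)) ^ 2 / 8 + 1 / 4000) * tot X (40 * q) := by
  set w : ℂ := Complex.exp (Complex.I * ((k * (Real.pi / 20) / q : ℝ) : ℂ)) with hw
  have h1 : ∑ c ∈ range 41, pw X q c • tau (k * c) =
      FF X (40 * q) w + (∑ i ∈ range (40 * q + 1), X i • ((1 - fr q i) • om ^ (k * (i / q)) +
        fr q i • om ^ (k * (i / q + 1)) - w ^ i)) +
      ∑ c ∈ range 41, pw X q c • (tau (k * c) - om ^ (k * c)) := by
    have h2 := pw_sum (M := ℂ) X q hq (fun c => om ^ (k * c))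
    have h3 : FF X (40 * q) w = ∑ i ∈ range (40 * q + 1), X i • w ^ i := by
      unfold FF
      exact sum_congr rfl fun i _ => by rw [Complex.real_smul]
    rw [h3, ← sum_add_distrib]
    simp only [smul_sub, sum_sub_distrib]
    rw [h2]
    simp only [smul_add]
    have h4 : ∑ x ∈ range (40 * q + 1), (X x • w ^ x +
        (X x • (1 - fr q x) • om ^ (k * (x / q)) +
          X x • fr q x • om ^ (k * (x / q + 1)) - X x • w ^ x)) =
        ∑ x ∈ range (40 * q + 1), (X x • (1 - fr q x) • om ^ (k * (x / q)) +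
          X x • fr q x • om ^ (k * (x / q + 1))) := sum_congr rfl fun i _ => by abel
    rw [h4]
    abel
  have h5 : ‖∑ i ∈ range (40 * q + 1), X i • ((1 - fr q i) • om ^ (k * (i / q)) +
        fr q i • om ^ (k * (i / q + 1)) - w ^ i)‖ ≤ (k * (Real.pi / 20)) ^ 2 / 8 * tot X (40 * q) := by
    refine (norm_sum_le _ _).trans ?_
    unfold tot
    rw [mul_sum]
    refine sum_le_sum fun i _ => ?_
    rw [norm_smul, Real.norm_eq_abs, abs_of_nonneg (hX i), mul_comm]
    exact mul_le_mul_of_nonneg_right (term_err hq k i) (hX i)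
  have h6 : ‖∑ c ∈ range 41, pw X q c • (tau (k * c) - om ^ (k * c))‖ ≤
      1 / 4000 * tot X (40 * q) := by
    refine (norm_sum_le _ _).trans ?_
    rw [← pw_total' X hq, mul_sum]
    refine sum_le_sum fun c _ => ?_
    have h0 := pw_nonneg X hX q c hq
    rw [norm_smul, Real.norm_eq_abs, abs_of_nonneg h0, mul_comm]
    exact mul_le_mul_of_nonneg_right (tau_err _) h0
  rw [h1]
  refine (norm_add_le _ _).trans ((add_le_add (norm_add_le _ _) le_rfl).trans ?_)
  rw [add_mul]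
  linarith

lemma CS_eq' (X : ℕ → ℝ) {q : ℕ} (k : ℕ) :
    (Cs (pw X q) k ^ 2 + Ss (pw X q) k ^ 2) / 10 ^ 12 =
    ‖∑ c ∈ range 41, pw X q c • tau (k * c)‖ ^ 2 := by
  have h1 : ∑ c ∈ range 41, pw X q c • tau (k * c) =
      ((Cs (pw X q) k / 10 ^ 6 : ℝ) : ℂ) + ((Ss (pw X q) k / 10 ^ 6 : ℝ) : ℂ) *
        Complex.I := by
    unfold Cs Ss ws tau
    push_cast
    rw [sum_div, sum_div, sum_mul, ← sum_add_distrib]
    refine sum_congr rfl fun c _ => ?_
    rw [Complex.real_smul]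
    ring
  rw [h1, ← Complex.normSq_eq_norm_sq, Complex.normSq_add_mul_I]
  ring

/-- main inequality -/
theorem Pot.main (hX : ∀ i, 0 ≤ X i) (hX0 : X 0 = 0) {q : ℕ} (hq : 0 < q)
    (h : Pot X lam D Gb G d (40 * q)) (hlam : 0 ≤ lam) (hK : 0 < tot X (40 * q))
    (hM : tot X (40 * q) ^ 2 ≤ 11253 / 10000 * (lam * (40 * q)))
    (hE1 : 2 * D + 40 * Gb ≤ 7 / 10 ^ 5 * tot X (40 * q) ^ 2)
    (hE2 : 262144 * lam + 262144 * D + 40 * 262144 * Gb ≤ 29 * tot X (40 * q) ^ 2) : False := by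
  have hqR : (1 : ℝ) ≤ q := by exact_mod_cast hq
  set Kn : ℝ := tot X (40 * q) with hKn
  have hws : (ws (pw X q) fun _ => 1) = Kn := by
    unfold ws
    simp only [mul_one]
    exact pw_total' X hq
  have hsys : Sys (pw X q) := by
    refine ⟨fun c => pw_nonneg _ hX q c hq, by rw [hws]; exact hK, ?_, ?_⟩
    · intro k hk
      rw [CS_eq', hws]
      have h1 := link' hX hq (k + 1)
      have hk1 : (1 : ℝ) ≤ ((k + 1 : ℕ) : ℝ) := by exact_mod_cast (by omega : 1 ≤ k + 1)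
      have hk6 : ((k + 1 : ℕ) : ℝ) ≤ 6 := by exact_mod_cast (by omega : k + 1 ≤ 6)
      have hpi := Real.pi_pos
      have hpi2 := Real.pi_lt_d2
      have h2 := h.F_bound hX hX0
        (θ := ((k + 1 : ℕ) : ℝ) * (Real.pi / 20) / q) (by positivity) (by
          rw [div_lt_iff₀ (by linarith)]
          nlinarith) ⟨k + 1, by push_cast; field_simp; ring⟩ (by
          have : ((k + 1 : ℕ) : ℝ) * (Real.pi / 20) / q * ((40 * q : ℕ) : ℝ) =
              ((k + 1 : ℕ) : ℝ) * (2 * Real.pi) := by push_cast; field_simp; ring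
          rw [this]
          nlinarith) (by positivity)
      have h3 : tot X (40 * q) ^ 2 - lam * ((40 * q : ℕ) : ℝ) + 2 * D + 40 * Gb ≤
          (3338 / 10000 * Kn) ^ 2 := by
        rw [← hKn]
        push_cast
        nlinarith
      have h4 : ‖FF X (40 * q) (Complex.exp (Complex.I *
          ((((k + 1 : ℕ) : ℝ) * (Real.pi / 20) / q : ℝ) : ℂ)))‖ ≤ 3338 / 10000 * Kn :=
        le_of_sq_le_sq (h2.trans h3) (by positivity)
      have h5 : ‖∑ c ∈ range 41, pw X q c • tau ((k + 1) * c)‖ ≤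
          (3338 / 10000 + (((k + 1 : ℕ) : ℝ) * (Real.pi / 20)) ^ 2 / 8 + 1 / 4000) * Kn := by
        refine h1.trans ?_
        rw [← hKn]
        nlinarith
      calc ‖∑ c ∈ range 41, pw X q c • tau ((k + 1) * c)‖ ^ 2 ≤
            ((3338 / 10000 + (((k + 1 : ℕ) : ℝ) * (Real.pi / 20)) ^ 2 / 8 + 1 / 4000) * Kn) ^ 2 :=
            pow_le_pow_left₀ (norm_nonneg _) h5 2
        _ = (3338 / 10000 + (((k + 1 : ℕ) : ℝ) * (Real.pi / 20)) ^ 2 / 8 + 1 / 4000) ^ 2 * Kn ^ 2 := by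
            ring
        _ ≤ _ := mul_le_mul_of_nonneg_right (delta_le k hk) (sq_nonneg _)
    · intro f hf0 hf1 hf2 hps
      rw [hws]
      have h1 := Pot.cover hX hX0 hq h hlam f hf0 hf1 hf2 hps
      refine le_trans ?_ h1
      have hP : (0 : ℝ) ≤ ((psi f 0 + 2 * ∑ s ∈ range 39, psi f (s + 1) : ℤ) : ℝ) := by
        have h2 : (0 : ℤ) ≤ psi f 0 + 2 * ∑ s ∈ range 39, psi f (s + 1) := by
          have h3 := psi_nonneg f hf0 hf2 hps 0
          have h4 : (0 : ℤ) ≤ ∑ s ∈ range 39, psi f (s + 1) :=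
            sum_nonneg fun s _ => psi_nonneg f hf0 hf2 hps _
          linarith
        exact_mod_cast h2
      set P : ℝ := ((psi f 0 + 2 * ∑ s ∈ range 39, psi f (s + 1) : ℤ) : ℝ) with hPd
      have h5 := mul_le_mul_of_nonneg_left hM hP
      linarith
  refine cov_false _ _ covering _ hsys ?_
  intro k hk
  have key : ∀ (p : ℕ → ℝ) (u v : ℤ) (j : ℕ), Xs p (u, v) j * Xs p (-u, -v) j ≤ 0 := by
    intro p u v j
    have : Xs p (-u, -v) j = -Xs p (u, v) j := by unfold Xs; push_cast; ring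
    rw [this]
    nlinarith [sq_nonneg (Xs p (u, v) j)]
  interval_cases k
  · exact key _ 924 383 _
  · exact key _ 1000 0 _
  · exact key _ 1000 0 _
  · exact key _ 1000 0 _

end

end Pool.Agent.H90.NZ
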