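import Pool.Agent.H90.NZ.Abs

/-!
# The asymptotic form
-/

set_option autoImplicit false
set_option linter.unusedSectionVars false

open Finset

namespace Pool.Agent.H90.NZ

/-- `tot` is large -/
lemma tot_large {lam C δ : ℝ} (hlam : 0 < lam) (hC : 0 ≤ C) (hδ : δ ≤ lam / 4) (M : ℝ) :
    ∃ n0 : ℕ, ∀ (X G d : ℕ → ℝ), (∀ i, 0 ≤ X i) →
      (∀ n : ℕ, Pot X lam (C * (tot X n + 1) + δ * n) (C * (tot X n + 1)) G d n) →
      ∀ n : ℕ, n0 ≤ n → M ≤ tot X n ∧ lam * n ≤ 4 * tot X n ^ 2 := by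
  obtain ⟨n0, hn0⟩ := exists_nat_ge ((4 * ((|M| + 4 * C + 1) ^ 2 + 2 * C * (|M| + 4 * C + 2))) / (3 * lam))
  refine ⟨n0 + 1, fun X G d hX h n hn => ?_⟩
  have hK := tot_nonneg hX n
  set K := tot X n with hKd
  have h1 := (h n).R_ge hX
  have h2 := tot_sq (X := X) n
  have h3 : 0 ≤ QQ X n := sum_nonneg fun p _ => mul_nonneg (hX _) (hX _)
  rw [← hKd] at h1 h2
  have hnR : (0 : ℝ) ≤ n := Nat.cast_nonneg _
  have h4 : δ * n ≤ lam / 4 * n := mul_le_mul_of_nonneg_right hδ hnR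
  have h5 : 3 / 4 * (lam * n) ≤ K ^ 2 + 2 * (C * (K + 1)) := by nlinarith
  have h6 : |M| + 4 * C + 1 ≤ K := by
    by_contra hcon
    push Not at hcon
    have hM := abs_nonneg M
    have h7 : K ^ 2 + 2 * (C * (K + 1)) ≤ (|M| + 4 * C + 1) ^ 2 + 2 * C * (|M| + 4 * C + 2) := by
      have a1 : K ^ 2 ≤ (|M| + 4 * C + 1) ^ 2 := pow_le_pow_left₀ hK hcon.le 2
      have a2 : C * (K + 1) ≤ C * (|M| + 4 * C + 2) := mul_le_mul_of_nonneg_left (by linarith) hC
      linarith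
    rw [div_le_iff₀ (by positivity)] at hn0
    have h8 : (n0 : ℝ) + 1 ≤ n := by exact_mod_cast hn
    have h9 : lam * (n0 + 1) ≤ lam * n := mul_le_mul_of_nonneg_left h8 hlam.le
    nlinarith
  have hM1 := le_abs_self M
  have hM2 := abs_nonneg M
  refine ⟨by linarith, ?_⟩
  have h10 : C * (K + 1) ≤ K ^ 2 / 2 := by
    have a1 : C ≤ K / 4 := by linarith
    have a2 : K + 1 ≤ 2 * K := by linarith
    calc C * (K + 1) ≤ K / 4 * (2 * K) := mul_le_mul a1 a2 (by linarith) (by linarith)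
      _ = K ^ 2 / 2 := by ring
  nlinarith

/-- the asymptotic bound, uniform in the sequence -/
theorem asymp {lam C δ : ℝ} (hlam : 0 < lam) (hC : 0 ≤ C) (hδ : δ ≤ lam / 10 ^ 6) :
    ∃ n0 : ℕ, ∀ (X G d : ℕ → ℝ), (∀ i, 0 ≤ X i) → X 0 = 0 →
      (∀ n : ℕ, Pot X lam (C * (tot X n + 1) + δ * n) (C * (tot X n + 1)) G d n) →
      ∀ n : ℕ, n0 ≤ n → 11252 / 10000 * (lam * n) ≤ tot X n ^ 2 := by
  obtain ⟨n1, hn1'⟩ := tot_large (δ := δ) hlam hC (hδ.trans (by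
    have : lam / 10 ^ 6 ≤ lam / 4 := by
      apply div_le_div_of_nonneg_left hlam.le (by norm_num) (by norm_num)
    exact this)) (2 * 10 ^ 8 * C + lam + 10 ^ 6)
  refine ⟨n1 + 500000, fun X G d hX hX0 h n hn => ?_⟩
  have hn1 := hn1' X G d hX h
  by_contra hcon
  push Not at hcon
  set q : ℕ := n / 40 with hqd
  have hq40 : 40 * q ≤ n := Nat.mul_div_le n 40
  have hq41 : n < 40 * q + 40 := by
    have := Nat.lt_mul_div_succ n (show 0 < 40 by norm_num)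
    rw [← hqd] at this
    omega
  have hq0 : 0 < q := by omega
  have hnR : (n : ℝ) < 40 * q + 40 := by exact_mod_cast hq41
  have hn200 : (450120 : ℝ) ≤ 40 * q := by exact_mod_cast (by omega : 450120 ≤ 40 * q)
  obtain ⟨hK1, hK2⟩ := hn1 (40 * q) (by omega)
  have hKm := tot_mono hX hq40
  have hp := h (40 * q)
  push_cast at hp hK2
  set K := tot X (40 * q) with hKd
  have hK0 : 10 ^ 6 ≤ K := by
    have : 0 ≤ 2 * 10 ^ 8 * C := by positivity
    linarith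
  have hKC : 2 * 10 ^ 8 * C ≤ K := by linarith
  have hKl : lam ≤ K := by
    have : 0 ≤ 2 * 10 ^ 8 * C := by positivity
    linarith
  have e1 : C * (K + 1) ≤ K ^ 2 / 10 ^ 8 := by
    have a1 : C ≤ K / (2 * 10 ^ 8) := by linarith
    have a2 : K + 1 ≤ 2 * K := by linarith
    calc C * (K + 1) ≤ K / (2 * 10 ^ 8) * (2 * K) := mul_le_mul a1 a2 (by linarith) (by positivity)
      _ = K ^ 2 / 10 ^ 8 := by ring
  have e2 : δ * (40 * q) ≤ 4 / 10 ^ 6 * K ^ 2 := by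
    have := mul_le_mul_of_nonneg_right hδ (by positivity : (0 : ℝ) ≤ 40 * q)
    have e3 : lam / 10 ^ 6 * (40 * q) = (lam * (40 * q)) / 10 ^ 6 := by ring
    rw [e3] at this
    linarith
  have e4 : K ^ 2 ≤ tot X n ^ 2 := pow_le_pow_left₀ (by linarith) hKm 2
  have hKs : 0 ≤ K ^ 2 := sq_nonneg K
  refine Pot.main hX hX0 hq0 hp hlam.le (by rw [← hKd]; linarith) ?_ ?_ ?_
  · rw [← hKd]
    have e5 : lam * n ≤ lam * (40 * q + 40) := mul_le_mul_of_nonneg_left hnR.le hlam.le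
    have e6 : lam * 450120 ≤ lam * (40 * q) := mul_le_mul_of_nonneg_left hn200 hlam.le
    linarith
  · rw [← hKd]
    linarith
  · rw [← hKd]
    have e7 : lam * 1 ≤ K * (K / 10 ^ 6) := by
      apply mul_le_mul hKl _ (by norm_num) (by linarith)
      rw [le_div_iff₀ (by norm_num)]
      linarith
    have e8 : K * (K / 10 ^ 6) = K ^ 2 / 10 ^ 6 := by ring
    rw [e8] at e7
    linarith

end Pool.Agent.H90.NZ
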