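import Pool.Agent.H90.NZ.Asy
import Pool.Graph.R_seed8.TH265.RB.Quad

/-!
# Nonzero digits of real quadratic integers

The potential is a floor of a linear function of the carry.
-/

set_option autoImplicit false
set_option linter.unusedSectionVars false

open Finset

namespace Pool.Agent.H90.NZ

open Pool.Agent.TH265.RB Pool.Agent.H394R2.Ones Pool.Agent.H820R3.DG

/-- the step of the potential -/
lemma pot_step {b τ T T' : ℝ} (hb : 2 ≤ b) (hτ : 0 < τ) (hT' : 0 < T') (k : ℤ)
    (h : b * T - T' ≤ τ * (b - 1) ^ 2 * k) :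
    1 + ⌊(b * (T - τ) + τ) / (τ * (b - 1) ^ 2)⌋ - (if T' < τ - τ / b then 1 else 0) ≤
      k + ⌊(b * (T' - τ) + τ) / (τ * (b - 1) ^ 2)⌋ := by
  have hb1 : 0 < b - 1 := by linarith
  have hw : 0 < τ * (b - 1) ^ 2 := by positivity
  set w := τ * (b - 1) ^ 2 with hwd
  by_cases hc : τ * (b - 1) ≤ T'
  · have h1 : (b * (T - τ) + τ) / w + 1 ≤ (k : ℝ) + (b * (T' - τ) + τ) / w := by
      rw [div_add_one hw.ne', ← sub_nonneg]
      have e : (k : ℝ) + (b * (T' - τ) + τ) / w - (b * (T - τ) + τ + w) / w =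
          (w * k + (b * (T' - τ) + τ) - (b * (T - τ) + τ + w)) / w := by
        field_simp
      rw [e]
      apply div_nonneg _ hw.le
      have h2 : w ≤ (b - 1) * T' := by
        rw [hwd]
        calc τ * (b - 1) ^ 2 = (b - 1) * (τ * (b - 1)) := by ring
          _ ≤ (b - 1) * T' := mul_le_mul_of_nonneg_left hc hb1.le
      nlinarith
    have h3 := Int.floor_le_floor h1
    rw [Int.floor_add_one, Int.floor_intCast_add] at h3
    split_ifs <;> omega
  · push Not at hc
    have h1 : (b * (T - τ) + τ) / w < k := by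
      rw [div_lt_iff₀ hw]
      nlinarith
    have h2 : ⌊(b * (T - τ) + τ) / w⌋ < k := Int.floor_lt.2 h1
    split_ifs with hbad
    · have h3 : (-1 : ℤ) ≤ ⌊(b * (T' - τ) + τ) / w⌋ := by
        apply Int.le_floor.2
        rw [le_div_iff₀ hw]
        push_cast
        rw [hwd]
        nlinarith [mul_pos hτ hb1, mul_pos (mul_pos hτ hb1) (by linarith : 0 < b)]
      omega
    · push Not at hbad
      have h3 : (0 : ℤ) ≤ ⌊(b * (T' - τ) + τ) / w⌋ := by
        apply Int.floor_nonneg.2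
        apply div_nonneg _ hw.le
        have h4 : b * (τ - τ / b) ≤ b * T' := mul_le_mul_of_nonneg_left hbad (by linarith)
        have h5 : b * (τ - τ / b) = b * τ - τ := by
          have : b ≠ 0 := by linarith
          field_simp
        linarith
      omega

/-- indicator of the nonzero digits -/
noncomputable def e (b : ℕ) (y : ℝ) (i : ℕ) : ℕ := if x b y i = 0 then 0 else 1

/-- number of ordered pairs of places of nonzero digits -/
noncomputable def rho (b : ℕ) (y : ℝ) (m : ℕ) : ℕ :=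
  ∑ p ∈ antidiagonal m, e b y p.1 * e b y p.2

/-- the diagonal -/
noncomputable def dia (b : ℕ) (y : ℝ) (m : ℕ) : ℕ := if m % 2 = 0 then e b y (m / 2) else 0

/-- the sequence `X` -/
noncomputable def XX (b : ℕ) (y : ℝ) (i : ℕ) : ℝ := (e b y i : ℝ)

section
variable {b : ℕ} {y : ℝ}

lemma e_le (i : ℕ) : e b y i ≤ 1 := by unfold e; split_ifs <;> omega

lemma XX_nonneg (i : ℕ) : 0 ≤ XX b y i := Nat.cast_nonneg _

lemma XX_zero (hy0 : 0 < y) (hy1 : y < 1) : XX b y 0 = 0 := by
  unfold XX e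
  rw [if_pos (x_zero hy0 hy1)]
  simp

lemma cv_XX (m : ℕ) : cv (XX b y) m = rho b y m := by
  unfold cv rho XX
  push_cast
  rfl

lemma rho_parity (m : ℕ) : 2 ∣ rho b y m + dia b y m := by
  have hz : ((rho b y m : ℕ) : ZMod 2) = dia b y m := by
    unfold rho dia
    rw [Nat.cast_sum]
    have key : ∀ p ∈ antidiagonal m, (Prod.swap p) ∈ antidiagonal m := by
      intro p hp
      rw [HasAntidiagonal.mem_antidiagonal] at hp ⊢
      simpa [add_comm] using hp
    by_cases hm : m % 2 = 0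
    · rw [if_pos hm]
      have hmem : (m / 2, m / 2) ∈ antidiagonal m := by
        rw [HasAntidiagonal.mem_antidiagonal]; omega
      rw [← add_sum_erase _ _ hmem]
      have h0 : ∑ p ∈ (antidiagonal m).erase (m / 2, m / 2),
          ((e b y p.1 * e b y p.2 : ℕ) : ZMod 2) = 0 := by
        refine sum_involution (fun p _ => Prod.swap p) ?_ ?_ ?_ ?_
        · intro p _
          simp only [Prod.fst_swap, Prod.snd_swap]
          push_cast
          rw [mul_comm ((e b y p.2 : ℕ) : ZMod 2)]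
          exact CharTwo.add_self_eq_zero _
        · intro p hp _ heq
          rw [mem_erase, HasAntidiagonal.mem_antidiagonal] at hp
          have h1 : p.2 = p.1 := by
            have := congrArg Prod.fst heq
            simpa using this
          apply hp.1
          ext <;> simp <;> omega
        · intro p hp
          rw [mem_erase] at hp ⊢
          refine ⟨?_, key p hp.2⟩
          intro h
          apply hp.1
          have h1 := congrArg Prod.fst h
          have h2 := congrArg Prod.snd h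
          simp only [Prod.fst_swap, Prod.snd_swap] at h1 h2
          ext <;> simp <;> omega
        · intro p _
          simp
      rw [h0, add_zero]
      push_cast
      have h1 := e_le (b := b) (y := y) (m / 2)
      interval_cases e b y (m / 2) <;> simp
    · rw [if_neg hm]
      push_cast
      refine sum_involution (fun p _ => Prod.swap p) ?_ ?_ key ?_
      · intro p _
        simp only [Prod.fst_swap, Prod.snd_swap]
        rw [mul_comm ((e b y p.2 : ℕ) : ZMod 2)]
        exact CharTwo.add_self_eq_zero _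
      · intro p hp _ heq
        rw [HasAntidiagonal.mem_antidiagonal] at hp
        have h1 : p.2 = p.1 := by
          have := congrArg Prod.fst heq
          simpa using this
        omega
      · intro p _
        simp
  rw [← ZMod.natCast_eq_zero_iff]
  push_cast
  rw [hz]
  exact CharTwo.add_self_eq_zero _

lemma x_le (hb : 2 ≤ b) (i : ℕ) : x b y i ≤ (b - 1) * e b y i := by
  unfold e
  have h : x b y i < b := Nat.mod_lt _ (by omega)
  split_ifs with h0
  · omega
  · omega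

lemma r_le_rho (hb : 2 ≤ b) (m : ℕ) : r b y m ≤ (b - 1) ^ 2 * rho b y m := by
  unfold r rho
  rw [mul_sum]
  refine sum_le_sum fun p _ => ?_
  calc x b y p.1 * x b y p.2 ≤ ((b - 1) * e b y p.1) * ((b - 1) * e b y p.2) :=
        Nat.mul_le_mul (x_le hb _) (x_le hb _)
    _ = _ := by ring

lemma K_le (hb : 2 ≤ b) (n : ℕ) : (K b y n : ℝ) ≤ ((b : ℝ) - 1) * tot (XX b y) n := by
  unfold K tot
  rw [mul_sum]
  push_cast
  refine sum_le_sum fun i _ => ?_
  have h := x_le (y := y) hb i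
  have h2 : ((x b y i : ℕ) : ℝ) ≤ (((b - 1) * e b y i : ℕ) : ℝ) := by exact_mod_cast h
  rw [Nat.cast_mul, Nat.cast_sub (by omega)] at h2
  unfold XX
  push_cast at h2
  exact h2

lemma dia_sum (n : ℕ) (hy0 : 0 < y) (hy1 : y < 1) :
    ∑ m ∈ range n, (dia b y (m + 1) : ℝ) ≤ tot (XX b y) n := by
  have h1 : ∀ k : ℕ, ∑ m ∈ range (2 * k), (dia b y (m + 1) : ℝ) ≤ tot (XX b y) k := by
    intro k
    induction k with
    | zero => simp [tot, XX]
    | succ k ih =>
      rw [show 2 * (k + 1) = 2 * k + 1 + 1 by ring, sum_range_succ, sum_range_succ]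
      have e1 : dia b y (2 * k + 1) = 0 := by unfold dia; rw [if_neg (by omega)]
      have e2 : dia b y (2 * k + 1 + 1) = e b y (k + 1) := by
        unfold dia
        rw [if_pos (by omega), show (2 * k + 1 + 1) / 2 = k + 1 by omega]
      rw [e1, e2]
      have e3 : tot (XX b y) (k + 1) = tot (XX b y) k + XX b y (k + 1) := by
        unfold tot; rw [sum_range_succ]
      have e4 : XX b y (k + 1) = (e b y (k + 1) : ℝ) := rfl
      rw [e3, e4]
      push_cast
      linarith
  rcases Nat.eq_zero_or_pos n with rfl | hn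
  · simp only [range_zero, sum_empty]
    exact tot_nonneg XX_nonneg 0
  calc ∑ m ∈ range n, (dia b y (m + 1) : ℝ) ≤ ∑ m ∈ range (2 * n), (dia b y (m + 1) : ℝ) :=
        sum_le_sum_of_subset_of_nonneg (range_mono (by omega)) fun _ _ _ => Nat.cast_nonneg _
    _ ≤ _ := h1 n

/-- the integral part of the potential -/
noncomputable def hh (b : ℕ) (y : ℝ) (τ : ℕ) (m : ℕ) : ℤ :=
  ⌊((b : ℝ) * (T b y m - τ) + τ) / (τ * ((b : ℝ) - 1) ^ 2)⌋

/-- bad places -/
noncomputable def bad (b : ℕ) (y : ℝ) (τ : ℕ) (m : ℕ) : ℤ :=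
  if T b y m < (τ : ℝ) - τ / b then 1 else 0

lemma hh_step (hb : 2 ≤ b) (hy0 : 0 < y) (hy1 : y < 1) (hirr : Irrational y) {τ : ℕ}
    (hτ : τ = 1 ∨ τ = 2) (m : ℕ) :
    (τ : ℤ) * (1 + hh b y τ m - bad b y τ (m + 1) - hh b y τ (m + 1)) - dia b y (m + 1) ≤
      rho b y (m + 1) := by
  have hbR : (2 : ℝ) ≤ b := by exact_mod_cast hb
  have hT := T_succ hb hy0 hy1 (b := b) m
  have hTp := T_pos hb hy0 hy1 hirr (m + 1)
  have hr : (r b y (m + 1) : ℝ) ≤ ((b : ℝ) - 1) ^ 2 * rho b y (m + 1) := by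
    have h := r_le_rho (y := y) hb (m + 1)
    have h2 : ((r b y (m + 1) : ℕ) : ℝ) ≤ (((b - 1) ^ 2 * rho b y (m + 1) : ℕ) : ℝ) := by
      exact_mod_cast h
    rw [Nat.cast_mul, Nat.cast_pow, Nat.cast_sub (by omega)] at h2
    push_cast at h2
    exact h2
  have hs : 0 ≤ ((b : ℝ) - 1) ^ 2 := sq_nonneg _
  rcases hτ with rfl | rfl
  · have h := pot_step hbR (τ := ((1 : ℕ) : ℝ)) (by norm_num) hTp (T := T b y m)
      (rho b y (m + 1) : ℤ) (by push_cast; linarith)
    unfold hh bad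
    have h0 : (0 : ℤ) ≤ dia b y (m + 1) := Int.natCast_nonneg _
    push_cast at h ⊢
    linarith
  · obtain ⟨k, hk⟩ := rho_parity (b := b) (y := y) (m + 1)
    have hkR : (rho b y (m + 1) : ℝ) + dia b y (m + 1) = 2 * k := by exact_mod_cast hk
    have hkZ : (rho b y (m + 1) : ℤ) + dia b y (m + 1) = 2 * k := by exact_mod_cast hk
    have hd0 : (0 : ℝ) ≤ dia b y (m + 1) := Nat.cast_nonneg _
    have h1 : (rho b y (m + 1) : ℝ) ≤ 2 * k := by linarith
    have h := pot_step hbR (τ := ((2 : ℕ) : ℝ)) (by norm_num) hTp (T := T b y m)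
      (k : ℤ) (by
        have h2 := mul_le_mul_of_nonneg_left h1 hs
        push_cast
        linarith)
    unfold hh bad
    push_cast at h ⊢
    linarith

lemma hh_ge (hb : 2 ≤ b) (hy0 : 0 < y) (hy1 : y < 1) (hirr : Irrational y) {τ : ℕ}
    (hτ : τ = 1 ∨ τ = 2) (m : ℕ) : -1 ≤ hh b y τ m := by
  have hbR : (2 : ℝ) ≤ b := by exact_mod_cast hb
  have hTp := T_pos hb hy0 hy1 hirr m
  have hτR : (1 : ℝ) ≤ τ := by rcases hτ with rfl | rfl <;> norm_num
  unfold hh
  apply Int.le_floor.2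
  have hb1 : 0 < (b : ℝ) - 1 := by linarith
  rw [le_div_iff₀ (by positivity)]
  push_cast
  have h1 : 0 < (b : ℝ) * T b y m := by positivity
  nlinarith [mul_pos (by linarith : (0 : ℝ) < τ) hb1,
    mul_nonneg (mul_nonneg (by linarith : (0 : ℝ) ≤ τ) hb1.le) (by linarith : (0 : ℝ) ≤ (b : ℝ) - 2)]

lemma hh_le (hb : 2 ≤ b) (hy0 : 0 < y) (hy1 : y < 1) (hirr : Irrational y) {τ : ℕ}
    (hτ : τ = 1 ∨ τ = 2) (m : ℕ) : (τ : ℝ) * (hh b y τ m + 1) ≤ 4 * (tot (XX b y) m + 1) := by
  have hbR : (2 : ℝ) ≤ b := by exact_mod_cast hb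
  have hTp := T_pos hb hy0 hy1 hirr m
  have hτR : (1 : ℝ) ≤ τ := by rcases hτ with rfl | rfl <;> norm_num
  have hτR2 : (τ : ℝ) ≤ 2 := by rcases hτ with rfl | rfl <;> norm_num
  have hb1 : 0 < (b : ℝ) - 1 := by linarith
  have h1 : (hh b y τ m : ℝ) ≤ ((b : ℝ) * (T b y m - τ) + τ) / (τ * ((b : ℝ) - 1) ^ 2) :=
    Int.floor_le _
  have hτ0 : (0 : ℝ) < τ := by linarith
  have h2 : (τ : ℝ) * (((b : ℝ) * (T b y m - τ) + τ) / (τ * ((b : ℝ) - 1) ^ 2)) =
      ((b : ℝ) * (T b y m - τ) + τ) / ((b : ℝ) - 1) ^ 2 := by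
    field_simp
  have h3 := T_le hb hy0 hy1 (b := b) m
  have h4 := K_le (y := y) hb m
  have h5 := tot_nonneg (X := XX b y) XX_nonneg m
  set t := tot (XX b y) m with ht
  have h6 : ((b : ℝ) * (T b y m - τ) + τ) / ((b : ℝ) - 1) ^ 2 ≤ 2 * t + 2 := by
    rw [div_le_iff₀ (by positivity)]
    have h7 : (b : ℝ) * T b y m ≤ b * (((b : ℝ) - 1) * t + 1) :=
      mul_le_mul_of_nonneg_left (by linarith) (by linarith)
    have h8 : (b : ℝ) * (((b : ℝ) - 1) * t + 1) ≤ (2 * t + 2) * ((b : ℝ) - 1) ^ 2 := by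
      have h9 : (b : ℝ) ≤ 2 * (b - 1) := by linarith
      have h10 : (b : ℝ) * ((b - 1) * t) ≤ 2 * (b - 1) * ((b - 1) * t) :=
        mul_le_mul_of_nonneg_right h9 (by positivity)
      have h11 : (b : ℝ) ≤ 2 * (b - 1) ^ 2 := by nlinarith
      nlinarith
    nlinarith
  have h7 := mul_le_mul_of_nonneg_left h1 hτ0.le
  rw [h2] at h7
  nlinarith

/-- the theorem for `y` in `(0, 1)` -/
theorem digits_main (hb : 2 ≤ b) (hy0 : 0 < y) (hy1 : y < 1) (hirr : Irrational y) {B C : ℤ}
    (hq : y ^ 2 + B * y + C = 0) :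
    ∃ n0 : ℕ, ∀ n : ℕ, n0 ≤ n →
      11252 / 10000 * (((Nat.gcd b 2 : ℕ) : ℝ) * n) ≤ tot (XX b y) n ^ 2 := by
  have hbR : (2 : ℝ) ≤ b := by exact_mod_cast hb
  set τ : ℕ := Nat.gcd b 2 with hτd
  have hτ : τ = 1 ∨ τ = 2 := by
    have h1 : τ ∣ 2 := Nat.gcd_dvd_right _ _
    have h2 := Nat.le_of_dvd (by norm_num) h1
    have h3 : τ ≠ 0 := by
      intro h
      rw [h] at h1
      norm_num at h1
    omega
  have hτR : (1 : ℝ) ≤ τ := by rcases hτ with h | h <;> rw [h] <;> norm_num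
  have hτR2 : (τ : ℝ) ≤ 2 := by rcases hτ with h | h <;> rw [h] <;> norm_num
  have hq1 : ((1 : ℤ) : ℝ) * y ^ 2 + B * y + C = 0 := by push_cast; linarith
  have hg : (((Int.gcd b (2 * 1) : ℕ) : ℝ)) / ((1 : ℤ) : ℝ) = τ := by
    have : Int.gcd (b : ℤ) (2 * 1) = τ := by
      rw [mul_one, hτd]
      rfl
    rw [this]
    push_cast
    ring
  have halg : IsAlgebraic ℚ y := by
    refine ⟨Polynomial.X ^ 2 + Polynomial.C (B : ℚ) * Polynomial.X + Polynomial.C (C : ℚ), ?_, ?_⟩
    · intro h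
      have h1 := congrArg (fun p => Polynomial.coeff p 2) h
      simp only [Polynomial.coeff_add, Polynomial.coeff_C_mul, Polynomial.coeff_X_pow,
        Polynomial.coeff_X, Polynomial.coeff_C, Polynomial.coeff_zero] at h1
      norm_num at h1
    · simp only [map_add, map_mul, map_pow, Polynomial.aeval_X, Polynomial.aeval_C]
      simpa using hq
  set δ' : ℝ := 1 / (10 ^ 6 * b) with hδ'
  have hb0 : (0 : ℝ) < b := by linarith
  have hδ'0 : 0 < δ' := by positivity
  have hδ'1 : δ' ≤ 1 / 4 := by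
    rw [hδ', div_le_div_iff₀ (by positivity) (by norm_num)]
    linarith
  obtain ⟨C1, hC10, hC1⟩ := bad_count hb hy0 hy1 halg hirr |(B : ℝ)| δ' hδ'0 hδ'1
  have hB0 : 0 ≤ |(B : ℝ)| := abs_nonneg _
  set C2 : ℝ := |(B : ℝ)| + 2 * τ + τ * C1 + τ with hC2
  have hC20 : 0 ≤ C2 := by positivity
  set C3 : ℝ := b ^ 2 * C2 + 4 + b * τ * δ' with hC3
  have hC30 : 0 ≤ C3 := by positivity
  obtain ⟨n0, hn0⟩ := asymp (lam := τ) (C := C3) (δ := b * τ * δ') (by linarith) hC30 (by
    rw [hδ']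
    apply le_of_eq
    field_simp)
  refine ⟨n0, hn0 (XX b y) (fun m => (τ : ℝ) * (hh b y τ m + 1))
    (fun m => (τ : ℝ) * bad b y τ (m + 1) + dia b y (m + 1)) XX_nonneg (XX_zero hy0 hy1) ?_⟩
  intro n
  have htn := tot_nonneg (X := XX b y) XX_nonneg n
  refine ⟨?_, ?_, ?_, ?_, ?_⟩
  · intro m
    have h := hh_ge hb hy0 hy1 hirr hτ m
    have h2 : (-1 : ℝ) ≤ hh b y τ m := by exact_mod_cast h
    have h3 : (0 : ℝ) ≤ (hh b y τ m : ℝ) + 1 := by linarith
    positivity
  · intro m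
    have h1 : (0 : ℝ) ≤ bad b y τ (m + 1) := by
      unfold bad
      split_ifs <;> norm_num
    positivity
  · intro m _
    have h := hh_step hb hy0 hy1 hirr hτ m
    have h2 : (τ : ℝ) * (1 + hh b y τ m - bad b y τ (m + 1) - hh b y τ (m + 1)) -
        dia b y (m + 1) ≤ rho b y (m + 1) := by exact_mod_cast h
    rw [cv_XX]
    linarith
  · intro m hm
    refine (hh_le hb hy0 hy1 hirr hτ m).trans ?_
    have h1 := tot_mono (X := XX b y) XX_nonneg hm
    have h2 : (4 : ℝ) ≤ C3 := by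
      rw [hC3]
      have : 0 ≤ (b : ℝ) ^ 2 * C2 := by positivity
      have : 0 ≤ (b : ℝ) * τ * δ' := by positivity
      linarith
    have h3 := tot_nonneg (X := XX b y) XX_nonneg m
    calc 4 * (tot (XX b y) m + 1) ≤ 4 * (tot (XX b y) n + 1) := by linarith
      _ ≤ C3 * (tot (XX b y) n + 1) := mul_le_mul_of_nonneg_right h2 (by linarith)
  · -- the deficiency
    have h1 : ∀ m, (bad b y τ m : ℝ) ≤ (b / τ) * dd b y τ |(B : ℝ)| m := by
      intro m
      have h2 := T_lower' hb hy0 hy1 hirr (A := 1) (by norm_num) hq1 m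
      rw [hg] at h2
      have h3 := dd_nonneg (b := b) (y := y) hy0 (τ := τ) (B := |(B : ℝ)|) (by linarith) hB0 m
      unfold bad
      split_ifs with hc
      · push_cast
        have h4 : (τ : ℝ) / b ≤ dd b y τ |(B : ℝ)| m := by linarith
        calc (1 : ℝ) = (b / τ) * (τ / b) := by
              have : (τ : ℝ) ≠ 0 := by linarith
              field_simp
          _ ≤ _ := mul_le_mul_of_nonneg_left h4 (by positivity)
      · push_cast
        positivity
    have h5 : ∑ m ∈ range n, (bad b y τ (m + 1) : ℝ) ≤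
        (b / τ) * ∑ m ∈ range (n + 1), dd b y τ |(B : ℝ)| m := by
      rw [mul_sum, sum_range_succ']
      have h6 : 0 ≤ (b : ℝ) / τ * dd b y τ |(B : ℝ)| 0 :=
        mul_nonneg (by positivity) (dd_nonneg hy0 (by linarith) hB0 0)
      have h7 : ∑ m ∈ range n, (bad b y τ (m + 1) : ℝ) ≤
          ∑ m ∈ range n, (b : ℝ) / τ * dd b y τ |(B : ℝ)| (m + 1) :=
        sum_le_sum fun m _ => h1 (m + 1)
      linarith
    have h8 := dd_sum hb hy0 hy1 (n + 1) (τ := τ) (δ := δ') (Bq := |(B : ℝ)|) (C1 := C1)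
      (by linarith) hB0 (hC1 (n + 1))
    rw [← hC2] at h8
    have h9 := K_le (y := y) hb (n + 1)
    have h10 : tot (XX b y) (n + 1) ≤ tot (XX b y) n + 1 := by
      unfold tot
      rw [sum_range_succ _ (n + 1)]
      have : XX b y (n + 1) ≤ 1 := by
        unfold XX
        exact_mod_cast e_le (n + 1)
      linarith
    have h11 : (K b y (n + 1) : ℝ) + 1 ≤ b * (tot (XX b y) n + 1) := by
      have : ((b : ℝ) - 1) * tot (XX b y) (n + 1) ≤ (b - 1) * (tot (XX b y) n + 1) :=
        mul_le_mul_of_nonneg_left h10 (by linarith)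
      linarith
    have h12 := dia_sum (b := b) (y := y) n hy0 hy1
    rw [sum_add_distrib, ← mul_sum]
    have h13 : (τ : ℝ) * ∑ m ∈ range n, (bad b y τ (m + 1) : ℝ) ≤
        b * ∑ m ∈ range (n + 1), dd b y τ |(B : ℝ)| m := by
      calc (τ : ℝ) * ∑ m ∈ range n, (bad b y τ (m + 1) : ℝ) ≤
            τ * ((b / τ) * ∑ m ∈ range (n + 1), dd b y τ |(B : ℝ)| m) :=
            mul_le_mul_of_nonneg_left h5 (by linarith)
        _ = _ := by
            have : (τ : ℝ) ≠ 0 := by linarith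
            field_simp
    have h14 : (b : ℝ) * ∑ m ∈ range (n + 1), dd b y τ |(B : ℝ)| m ≤
        b * (C2 * (b * (tot (XX b y) n + 1)) + τ * δ' * (n + 1)) := by
      apply mul_le_mul_of_nonneg_left _ hb0.le
      have h15 := mul_le_mul_of_nonneg_left h11 hC20
      push_cast at h8
      linarith
    have h16 : (b : ℝ) * τ * δ' ≤ b * τ * δ' * (tot (XX b y) n + 1) := by
      have : 0 ≤ (b : ℝ) * τ * δ' := by positivity
      nlinarith
    rw [hC3]
    nlinarith

end

end Pool.Agent.H90.NZ
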