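import Pool.Agent.H90.NZ.Win

/-!
# The final theorems
-/

set_option autoImplicit false
set_option linter.unusedSectionVars false

open Finset

namespace Pool.Agent.H90.NZ

open Pool.Agent.H394R2.Ones

lemma fract_facts {η : ℝ} (hirr : Irrational η) :
    0 < Int.fract η ∧ Int.fract η < 1 ∧ Irrational (Int.fract η) := by
  have h2 : Irrational (Int.fract η) := by
    have h3 : Int.fract η = η - (⌊η⌋ : ℤ) := rfl
    rw [h3]
    exact hirr.sub_intCast _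
  exact ⟨lt_of_le_of_ne (Int.fract_nonneg _) (Ne.symm h2.ne_zero), Int.fract_lt_one _, h2⟩

lemma fract_quad {η : ℝ} {B C : ℤ} (hq : η ^ 2 + B * η + C = 0) :
    Int.fract η ^ 2 + ((B + 2 * ⌊η⌋ : ℤ) : ℝ) * Int.fract η +
      ((C + B * ⌊η⌋ + ⌊η⌋ ^ 2 : ℤ) : ℝ) = 0 := by
  have h1 : Int.fract η = η - ⌊η⌋ := rfl
  rw [h1]
  push_cast
  linear_combination hq

lemma gcd_pow_two (b : ℕ) {t : ℕ} (ht : 1 ≤ t) : Nat.gcd (b ^ t) 2 = Nat.gcd b 2 := by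
  rcases Nat.even_or_odd b with h | h
  · have h1 : 2 ∣ b := h.two_dvd
    have h2 : 2 ∣ b ^ t := dvd_pow h1 (by omega)
    rw [Nat.gcd_eq_right h1, Nat.gcd_eq_right h2]
  · have h1 : Nat.Coprime b 2 := Nat.coprime_two_right.2 h
    rw [Nat.Coprime.pow_left t h1, h1]

/-- windows with a nonzero digit, for real quadratic integers -/
theorem wins_quad {b : ℕ} (hb : 2 ≤ b) {t : ℕ} (ht : 1 ≤ t) {ξ : ℝ} (hirr : Irrational ξ)
    {B C : ℤ} (hq : ξ ^ 2 + B * ξ + C = 0) :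
    ∃ n0 : ℕ, ∀ n : ℕ, n0 ≤ n → Real.sqrt (9 * ((Nat.gcd b 2 : ℕ) : ℝ) * t * n / 8) ≤
      wins b ξ t n := by
  have hbt : 2 ≤ b ^ t := by
    calc 2 ≤ b := hb
      _ = b ^ 1 := (pow_one b).symm
      _ ≤ b ^ t := Nat.pow_le_pow_right (by omega) ht
  have hg := gcd_pow_two b ht
  have h1 : ∀ s : ℕ, ∃ n0 : ℕ, ∀ n : ℕ, n0 ≤ n →
      11252 / 10000 * (((Nat.gcd b 2 : ℕ) : ℝ) * n) ≤
        tot (XX (b ^ t) (Int.fract ((b : ℝ) ^ s * ξ))) n ^ 2 := by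
    intro s
    have hirr' : Irrational ((b : ℝ) ^ s * ξ) := by
      have h1 : Irrational (((b ^ s : ℕ) : ℝ) * ξ) := hirr.natCast_mul (by positivity)
      push_cast at h1
      exact h1
    have hq' : ((b : ℝ) ^ s * ξ) ^ 2 + ((B * (b : ℤ) ^ s : ℤ) : ℝ) * ((b : ℝ) ^ s * ξ) +
        ((C * ((b : ℤ) ^ s) ^ 2 : ℤ) : ℝ) = 0 := by
      push_cast
      linear_combination ((b : ℝ) ^ s) ^ 2 * hq
    obtain ⟨h2, h3, h4⟩ := fract_facts hirr'
    have h5 := digits_main hbt h2 h3 h4 (fract_quad hq')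
    rw [hg] at h5
    exact h5
  choose f hf using h1
  refine ⟨((range t).sup f + 20000) * t, fun n hn => ?_⟩
  refine wins_final hb ht hirr (Nat.cast_nonneg _) ((range t).sup f) ?_ n hn
  intro s hs N hN
  exact hf s N (le_trans (le_sup (mem_range.2 hs)) hN)

/-- windows with a nonzero digit of `√2`, uniformly in the base and in the length -/
theorem wins_sqrt_two : ∃ n0 : ℕ, ∀ b t n : ℕ, 2 ≤ b → 1 ≤ t → n0 * t ≤ n →
    Real.sqrt (9 * ((Nat.gcd b 2 : ℕ) : ℝ) * t * n / 8) ≤ wins b (Real.sqrt 2) t n := by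
  obtain ⟨n0, hn0⟩ := digits_uniform
  refine ⟨n0 + 20000, fun b t n hb ht hn => ?_⟩
  refine wins_final hb ht irrational_sqrt_two (Nat.cast_nonneg _) n0 ?_ n hn
  intro s hs N hN
  have hbR : (2 : ℝ) ≤ b := by exact_mod_cast hb
  have hirr' : Irrational ((b : ℝ) ^ s * Real.sqrt 2) := by
    have h1 : Irrational (((b ^ s : ℕ) : ℝ) * Real.sqrt 2) :=
      irrational_sqrt_two.natCast_mul (by positivity)
    push_cast at h1
    exact h1
  have hs2 : Real.sqrt 2 ^ 2 = 2 := Real.sq_sqrt (by norm_num)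
  have hq' : ((b : ℝ) ^ s * Real.sqrt 2) ^ 2 + ((0 : ℤ) : ℝ) *
      ((b : ℝ) ^ s * Real.sqrt 2) + ((-(2 * ((b : ℤ) ^ s) ^ 2) : ℤ) : ℝ) = 0 := by
    push_cast
    rw [mul_pow, hs2]
    ring
  obtain ⟨h2, h3, h4⟩ := fract_facts hirr'
  have hbt : 2 ≤ b ^ t := by
    calc 2 ≤ b := hb
      _ = b ^ 1 := (pow_one b).symm
      _ ≤ b ^ t := Nat.pow_le_pow_right (by omega) ht
  have hfl : 0 ≤ ⌊(b : ℝ) ^ s * Real.sqrt 2⌋ := Int.floor_nonneg.2 (by positivity)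
  rw [← gcd_pow_two b ht]
  refine hn0 (b ^ t) _ _ _ hbt h2 h3 h4 (fract_quad hq') ?_ ?_ N hN
  · omega
  · have h5 : (⌊(b : ℝ) ^ s * Real.sqrt 2⌋ : ℝ) ≤ (b : ℝ) ^ s * Real.sqrt 2 :=
      Int.floor_le _
    have h6 : Real.sqrt 2 ≤ b := by
      refine le_trans ?_ hbR
      rw [Real.sqrt_le_left (by norm_num)]
      norm_num
    have h7 : (b : ℝ) ^ s * Real.sqrt 2 ≤ b ^ t := by
      have h8 : (b : ℝ) ^ (s + 1) ≤ b ^ t := pow_le_pow_right₀ (by linarith) (by omega)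
      rw [pow_succ] at h8
      calc (b : ℝ) ^ s * Real.sqrt 2 ≤ b ^ s * b :=
            mul_le_mul_of_nonneg_left h6 (by positivity)
        _ ≤ _ := h8
    have h9 : (⌊(b : ℝ) ^ s * Real.sqrt 2⌋ : ℝ) ≤ (((b ^ t : ℕ) : ℤ) : ℝ) := by
      push_cast
      linarith
    have h10 : ⌊(b : ℝ) ^ s * Real.sqrt 2⌋ ≤ ((b ^ t : ℕ) : ℤ) := by exact_mod_cast h9
    linarith

end Pool.Agent.H90.NZ
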