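import Pool.Agent.H90.NZ.Dig

/-!
# Uniformity in the base
-/

set_option autoImplicit false
set_option linter.unusedSectionVars false

open Finset

namespace Pool.Agent.H90.NZ

open Pool.Agent.TH265.RB Pool.Agent.H394R2.Ones Pool.Agent.H820R3.DG

section
variable {b : ℕ} {y : ℝ}

lemma ep_small (hb : 2 ≤ b) {m : ℕ} (h1 : x b y (m + 1) = 0)
    (h2 : x b y (m + 2) = 0) (h3 : x b y (m + 3) = 0) : (b : ℝ) ^ 3 * ep b y m < 1 := by
  have e1 := ep_succ (b := b) (y := y) hb m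
  have e2 := ep_succ (b := b) (y := y) hb (m + 1)
  have e3 := ep_succ (b := b) (y := y) hb (m + 2)
  rw [h1] at e1
  rw [show m + 1 + 1 = m + 2 by ring, h2] at e2
  rw [show m + 2 + 1 = m + 3 by ring, h3] at e3
  have h4 := ep_lt (b := b) (y := y) (m + 3)
  push_cast at e1 e2 e3
  rw [e3, e2, e1] at h4
  linarith

lemma bad_le (hb : 2 ≤ b) {τ : ℕ} (hτ : τ = 1 ∨ (τ = 2 ∧ 2 ∣ b)) (hy0 : 0 < y) (hy1 : y < 1)
    (hirr : Irrational y) {B C : ℤ} (hq : y ^ 2 + B * y + C = 0) (hB0 : 0 ≤ B) (hB : B ≤ 2 * b)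
    (m : ℕ) (hm : 1 ≤ m) :
    (bad b y τ m : ℝ) ≤ e b y m + dia b y m + e b y (m + 1) + e b y (m + 2) + e b y (m + 3) := by
  have he : ∀ i, x b y i ≠ 0 → e b y i = 1 := fun i hi => by unfold e; rw [if_neg hi]
  have p0 : (0 : ℝ) ≤ e b y m := Nat.cast_nonneg _
  have p1 : (0 : ℝ) ≤ dia b y m := Nat.cast_nonneg _
  have p2 : (0 : ℝ) ≤ e b y (m + 1) := Nat.cast_nonneg _
  have p3 : (0 : ℝ) ≤ e b y (m + 2) := Nat.cast_nonneg _
  have p4 : (0 : ℝ) ≤ e b y (m + 3) := Nat.cast_nonneg _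
  unfold bad
  split_ifs with hbad
  swap
  · push_cast
    linarith
  by_cases c0 : x b y m = 0
  swap
  · rw [he _ c0]; push_cast; linarith
  by_cases c1 : x b y (m + 1) = 0
  swap
  · rw [he _ c1]; push_cast; linarith
  by_cases c2 : x b y (m + 2) = 0
  swap
  · rw [he _ c2]; push_cast; linarith
  by_cases c4 : x b y (m + 3) = 0
  swap
  · rw [he _ c4]; push_cast; linarith
  by_cases c3 : r b y m % 2 = 1
  · obtain ⟨h1, h2⟩ := r_parity (b := b) (y := y) m c3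
    have h3 : dia b y m = 1 := by
      unfold dia
      rw [if_pos h1]
      exact he _ (by omega)
    rw [h3]
    push_cast
    linarith
  exfalso
  have hbR : (2 : ℝ) ≤ b := by exact_mod_cast hb
  have hep := ep_nonneg (b := b) (y := y) hy0 m
  have hZ : ∀ k : ℕ, T b y k + B * ep b y k =
      ((-C * (b : ℤ) ^ k - S b y k - B * Pool.Agent.H394R2.Ones.B b y k : ℤ) : ℝ) := by
    intro k
    unfold T ep
    push_cast
    linear_combination ((b : ℝ) ^ k) * hq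
  set Z : ℕ → ℤ := fun k =>
    -C * (b : ℤ) ^ k - S b y k - B * Pool.Agent.H394R2.Ones.B b y k with hZdef
  have hrec : Z m = b * Z (m - 1) - r b y m - B * x b y m := by
    obtain ⟨k, rfl⟩ : ∃ k, m = k + 1 := ⟨m - 1, by omega⟩
    rw [hZdef]
    simp only [Nat.add_sub_cancel]
    rw [S_succ hb hy0 hy1, B_succ hb]
    push_cast
    ring
  have hZm : T b y m + B * ep b y m = (Z m : ℝ) := hZ m
  have hTp := T_pos hb hy0 hy1 hirr m
  have hB0R : (0 : ℝ) ≤ B := by exact_mod_cast hB0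
  have hBR : (B : ℝ) ≤ 2 * b := by exact_mod_cast hB
  have hZpos : 0 < Z m := by
    have h1 : (0 : ℝ) < Z m := by
      rw [← hZm]
      have := mul_nonneg hB0R hep
      linarith
    exact_mod_cast h1
  have hdvd : (τ : ℤ) ∣ Z m := by
    rcases hτ with rfl | ⟨rfl, hev⟩
    · exact one_dvd _
    · rw [hrec, c0]
      obtain ⟨b', hb'⟩ := hev
      obtain ⟨r', hr'⟩ : ∃ r' : ℕ, r b y m = 2 * r' := ⟨r b y m / 2, by omega⟩
      rw [hr', hb']
      refine ⟨(b' : ℤ) * Z (m - 1) - r', ?_⟩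
      push_cast
      ring
  have hZ2 : (τ : ℤ) ≤ Z m := Int.le_of_dvd hZpos hdvd
  have hZ2R : (τ : ℝ) ≤ Z m := by exact_mod_cast hZ2
  have hτR : (1 : ℝ) ≤ τ := by rcases hτ with h | ⟨h, -⟩ <;> rw [h] <;> norm_num
  have h4 := ep_small hb c1 c2 c4
  have hb0 : (0 : ℝ) < b := by linarith
  have h5 : (B : ℝ) * ep b y m ≤ 2 * b * ep b y m := mul_le_mul_of_nonneg_right hBR hep
  have h6 : 2 * (b : ℝ) * ep b y m ≤ τ / b := by
    rw [le_div_iff₀ hb0]
    have h7 : (b : ℝ) ^ 3 * ep b y m = b * (b ^ 2 * ep b y m) := by ring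
    have h8 : 2 * ((b : ℝ) ^ 2 * ep b y m) ≤ b * (b ^ 2 * ep b y m) :=
      mul_le_mul_of_nonneg_right hbR (by positivity)
    nlinarith
  linarith

lemma tot_succ_le (n : ℕ) : tot (XX b y) (n + 1) ≤ tot (XX b y) n + 1 := by
  unfold tot
  rw [sum_range_succ _ (n + 1)]
  have : XX b y (n + 1) ≤ 1 := by
    unfold XX
    exact_mod_cast e_le (n + 1)
  linarith

lemma shift_sum (j n : ℕ) (hy0 : 0 < y) (hy1 : y < 1) :
    ∑ m ∈ range n, (e b y (m + 1 + j) : ℝ) ≤ tot (XX b y) (n + j) := by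
  have h1 : ∑ m ∈ range n, (e b y (m + 1 + j) : ℝ) =
      ∑ i ∈ Ico (1 + j) (n + 1 + j), (e b y i : ℝ) := by
    rw [sum_Ico_eq_sum_range]
    have : n + 1 + j - (1 + j) = n := by omega
    rw [this]
    refine sum_congr rfl fun m _ => ?_
    rw [show 1 + j + m = m + 1 + j by ring]
  rw [h1]
  unfold tot XX
  refine sum_le_sum_of_subset_of_nonneg ?_ fun _ _ _ => Nat.cast_nonneg _
  intro i hi
  rw [mem_Ico] at hi
  rw [mem_range]
  omega

end

/-- the theorem for `y` in `(0, 1)`, uniform in the base, for fixed `τ` -/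
theorem digits_uniform' (τ : ℕ) (hτ : τ = 1 ∨ τ = 2) : ∃ n0 : ℕ, ∀ (b : ℕ) (y : ℝ) (B C : ℤ),
    2 ≤ b → (τ = 2 → 2 ∣ b) → 0 < y → y < 1 →
    Irrational y → y ^ 2 + B * y + C = 0 → 0 ≤ B → B ≤ 2 * b → ∀ n : ℕ, n0 ≤ n →
      11252 / 10000 * ((τ : ℝ) * (n : ℝ)) ≤ tot (XX b y) n ^ 2 := by
  have hτR : (1 : ℝ) ≤ τ := by rcases hτ with h | h <;> rw [h] <;> norm_num
  have hτR2 : (τ : ℝ) ≤ 2 := by rcases hτ with h | h <;> rw [h] <;> norm_num
  obtain ⟨n0, hn0⟩ := asymp (lam := τ) (C := 25) (δ := 0) (by linarith) (by norm_num)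
    (by positivity)
  refine ⟨n0, fun b y B C hb hev hy0 hy1 hirr hq hB0 hB => ?_⟩
  refine hn0 (XX b y) (fun m => (τ : ℝ) * (hh b y τ m + 1))
    (fun m => (τ : ℝ) * bad b y τ (m + 1) + dia b y (m + 1)) XX_nonneg (XX_zero hy0 hy1) ?_
  intro n
  have hbad0 : ∀ m, (0 : ℝ) ≤ bad b y τ m := by
    intro m
    unfold bad
    split_ifs <;> norm_num
  have htn := tot_nonneg (X := XX b y) XX_nonneg n
  refine ⟨?_, ?_, ?_, ?_, ?_⟩
  · intro m
    have h := hh_ge hb hy0 hy1 hirr hτ m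
    have h2 : (-1 : ℝ) ≤ hh b y τ m := by exact_mod_cast h
    have h3 : (0 : ℝ) ≤ (hh b y τ m : ℝ) + 1 := by linarith
    positivity
  · intro m
    have h1 := hbad0 (m + 1)
    positivity
  · intro m _
    have h := hh_step hb hy0 hy1 hirr hτ m
    have h2 : (τ : ℝ) * (1 + hh b y τ m - bad b y τ (m + 1) - hh b y τ (m + 1)) -
        dia b y (m + 1) ≤ rho b y (m + 1) := by exact_mod_cast h
    rw [cv_XX]
    linarith
  · intro m hm
    refine (hh_le hb hy0 hy1 hirr hτ m).trans ?_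
    have h1 := tot_mono (X := XX b y) XX_nonneg hm
    linarith
  · have h1 : ∑ m ∈ range n, (bad b y τ (m + 1) : ℝ) ≤
        ∑ m ∈ range n, ((e b y (m + 1) : ℝ) + dia b y (m + 1) + e b y (m + 1 + 1) +
          e b y (m + 1 + 2) + e b y (m + 1 + 3)) := by
      refine sum_le_sum fun m _ => bad_le hb ?_ hy0 hy1 hirr hq hB0 hB (m + 1) (by omega)
      rcases hτ with h | h
      · exact Or.inl h
      · exact Or.inr ⟨h, hev h⟩
    rw [sum_add_distrib, sum_add_distrib, sum_add_distrib, sum_add_distrib] at h1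
    have h2 := shift_sum (b := b) (y := y) 0 n hy0 hy1
    have h3 := shift_sum (b := b) (y := y) 1 n hy0 hy1
    have h4 := shift_sum (b := b) (y := y) 2 n hy0 hy1
    have h4' := shift_sum (b := b) (y := y) 3 n hy0 hy1
    have h5 := dia_sum (b := b) (y := y) n hy0 hy1
    have h6 := tot_succ_le (b := b) (y := y) n
    have h7 := tot_succ_le (b := b) (y := y) (n + 1)
    have h8 := tot_succ_le (b := b) (y := y) (n + 2)
    simp only [add_zero] at h2
    rw [sum_add_distrib, ← mul_sum]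
    have h9 : 0 ≤ ∑ m ∈ range n, (bad b y τ (m + 1) : ℝ) := sum_nonneg fun m _ => hbad0 _
    have h10 := mul_le_mul_of_nonneg_right hτR2 h9
    rw [show n + 1 + 1 = n + 2 by ring] at h7
    rw [show n + 2 + 1 = n + 3 by ring] at h8
    linarith

/-- the theorem for `y` in `(0, 1)`, uniform in the base -/
theorem digits_uniform : ∃ n0 : ℕ, ∀ (b : ℕ) (y : ℝ) (B C : ℤ), 2 ≤ b → 0 < y → y < 1 →
    Irrational y → y ^ 2 + B * y + C = 0 → 0 ≤ B → B ≤ 2 * b → ∀ n : ℕ, n0 ≤ n →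
      11252 / 10000 * (((Nat.gcd b 2 : ℕ) : ℝ) * (n : ℝ)) ≤ tot (XX b y) n ^ 2 := by
  obtain ⟨n1, h1⟩ := digits_uniform' 1 (Or.inl rfl)
  obtain ⟨n2, h2⟩ := digits_uniform' 2 (Or.inr rfl)
  refine ⟨n1 + n2, fun b y B C hb hy0 hy1 hirr hq hB0 hB n hn => ?_⟩
  rcases Nat.even_or_odd b with h | h
  · rw [Nat.gcd_eq_right h.two_dvd]
    exact h2 b y B C hb (fun _ => h.two_dvd) hy0 hy1 hirr hq hB0 hB n (by omega)
  · have h3 : Nat.gcd b 2 = 1 := Nat.coprime_two_right.2 h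
    rw [h3]
    exact h1 b y B C hb (fun h => absurd h (by norm_num)) hy0 hy1 hirr hq hB0 hB n (by omega)

end Pool.Agent.H90.NZ
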