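import Pool.Agent.H90.NZ.Uni

/-!
# Windows of consecutive digits
-/

set_option autoImplicit false
set_option linter.unusedSectionVars false

open Finset

namespace Pool.Agent.H90.NZ

open Pool.Agent.H394R2.Ones

/-- the digit at the place `k` -/
noncomputable def dgt (b : ℕ) (ξ : ℝ) (k : ℕ) : ℤ := ⌊ξ * (b : ℝ) ^ k⌋ % (b : ℤ)

lemma emod_pow_eq_zero (b : ℕ) (hb : 1 ≤ b) (N : ℤ) (t : ℕ) :
    N % ((b : ℤ) ^ t) = 0 ↔ ∀ i < t, (N / (b : ℤ) ^ i) % b = 0 := by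
  have hb0 : (b : ℤ) ≠ 0 := by exact_mod_cast (by omega : b ≠ 0)
  induction t generalizing N with
  | zero => simp
  | succ t ih =>
    constructor
    · intro h i hi
      obtain ⟨c, hc⟩ := Int.dvd_of_emod_eq_zero h
      apply Int.emod_eq_zero_of_dvd
      have h1 : (b : ℤ) ^ (t + 1) = (b : ℤ) ^ i * (b * (b : ℤ) ^ (t - i)) := by
        rw [← pow_succ', ← pow_add]
        congr 1
        omega
      rw [hc, h1, mul_assoc, Int.mul_ediv_cancel_left _ (pow_ne_zero _ hb0)]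
      exact ⟨(b : ℤ) ^ (t - i) * c, by ring⟩
    · intro h
      have h0 := h 0 (by omega)
      rw [pow_zero, Int.ediv_one] at h0
      obtain ⟨c, hc⟩ := Int.dvd_of_emod_eq_zero h0
      have h1 : c % (b : ℤ) ^ t = 0 := by
        refine (ih c).2 ?_
        intro i hi
        have h2 := h (i + 1) (by omega)
        rw [hc, pow_succ', Int.mul_ediv_mul_of_pos _ _ (by omega)] at h2
        exact h2
      obtain ⟨c', hc'⟩ := Int.dvd_of_emod_eq_zero h1
      apply Int.emod_eq_zero_of_dvd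
      exact ⟨c', by rw [hc, hc', pow_succ]; ring⟩

lemma floor_pow_div {b : ℕ} (hb : 1 ≤ b) (ξ : ℝ) (k i : ℕ) (hi : i ≤ k) :
    ⌊ξ * (b : ℝ) ^ k⌋ / (b : ℤ) ^ i = ⌊ξ * (b : ℝ) ^ (k - i)⌋ := by
  have hb0 : (b : ℝ) ≠ 0 := by positivity
  have h := Int.floor_div_natCast (ξ * (b : ℝ) ^ k) (b ^ i)
  push_cast at h
  rw [← h]
  congr 1
  rw [mul_div_assoc, pow_sub₀ _ hb0 hi]
  rfl

/-- digits in the base `b ^ t` and windows of digits in the base `b` -/
lemma block {b : ℕ} (hb : 2 ≤ b) {t : ℕ} (ht : 1 ≤ t) {ξ : ℝ} (s j : ℕ) :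
    x (b ^ t) (Int.fract ((b : ℝ) ^ s * ξ)) (j + 1) = 0 ↔
      ∀ i < t, dgt b ξ (s + t * j + 1 + i) = 0 := by
  set η : ℝ := (b : ℝ) ^ s * ξ with hη
  set B' : ℕ := b ^ t with hB'
  have hB2 : 2 ≤ B' := by
    calc 2 ≤ b := hb
      _ = b ^ 1 := (pow_one b).symm
      _ ≤ b ^ t := Nat.pow_le_pow_right (by omega) ht
  have hξ : η = ⌊η⌋ + Int.fract η := (Int.floor_add_fract η).symm
  set y := Int.fract η with hy
  have hy0 : 0 ≤ y := Int.fract_nonneg η
  have hdig : ⌊η * (B' : ℝ) ^ (j + 1)⌋ % (B' : ℤ) = (x B' y (j + 1) : ℤ) := by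
    have h1 : η * (B' : ℝ) ^ (j + 1) = ((⌊η⌋ * (B' : ℤ) ^ (j + 1) : ℤ) : ℝ) +
        y * (B' : ℝ) ^ (j + 1) := by
      nth_rewrite 1 [hξ]
      push_cast
      ring
    rw [h1, Int.floor_intCast_add]
    unfold x Pool.Agent.H394R2.Ones.B
    push_cast
    rw [Int.natCast_floor_eq_floor (by positivity)]
    rw [show ⌊η⌋ * (B' : ℤ) ^ (j + 1) + ⌊y * (B' : ℝ) ^ (j + 1)⌋ =
      ⌊y * (B' : ℝ) ^ (j + 1)⌋ + (B' : ℤ) * (⌊η⌋ * (B' : ℤ) ^ j) by ring, Int.add_mul_emod_self_left]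
  have h2 : η * (B' : ℝ) ^ (j + 1) = ξ * (b : ℝ) ^ (s + t * (j + 1)) := by
    rw [hη, hB']
    push_cast
    rw [← pow_mul, pow_add]
    ring
  have h3 : x B' y (j + 1) = 0 ↔ ⌊ξ * (b : ℝ) ^ (s + t * (j + 1))⌋ % ((b : ℤ) ^ t) = 0 := by
    rw [h2] at hdig
    have h4 : ((B' : ℕ) : ℤ) = (b : ℤ) ^ t := by rw [hB']; push_cast; rfl
    rw [h4] at hdig
    rw [hdig]
    norm_cast
  rw [h3, emod_pow_eq_zero b (by omega)]
  have h5 : ∀ i < t, (⌊ξ * (b : ℝ) ^ (s + t * (j + 1))⌋ / (b : ℤ) ^ i) % b =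
      dgt b ξ (s + t * j + 1 + (t - 1 - i)) := by
    intro i hi
    rw [floor_pow_div (by omega) ξ _ i (by
      have : t ≤ s + t * (j + 1) := by rw [mul_add, mul_one]; omega
      omega)]
    unfold dgt
    rw [show s + t * (j + 1) - i = s + t * j + 1 + (t - 1 - i) by rw [mul_add, mul_one]; omega]
  constructor
  · intro h i hi
    have h6 := h (t - 1 - i) (by omega)
    rw [h5 _ (by omega)] at h6
    rw [show t - 1 - (t - 1 - i) = i by omega] at h6
    exact h6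
  · intro h i hi
    rw [h5 i hi]
    exact h _ (by omega)

/-- windows with a nonzero digit -/
noncomputable def wins (b : ℕ) (ξ : ℝ) (t n : ℕ) : ℕ :=
  ((Icc 1 (n + 1 - t)).filter (fun k => ∃ i < t, dgt b ξ (k + i) ≠ 0)).card

lemma tot_eq_card (b : ℕ) (y : ℝ) (hy0 : 0 < y) (hy1 : y < 1) (J : ℕ) :
    tot (XX b y) J = (((range J).filter (fun j => x b y (j + 1) ≠ 0)).card : ℝ) := by
  unfold tot
  rw [sum_range_succ', XX_zero hy0 hy1, add_zero, card_filter]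
  push_cast
  refine sum_congr rfl fun j _ => ?_
  unfold XX e
  by_cases h1 : x b y (j + 1) = 0
  · simp [h1]
  · simp [h1]

lemma wins_ge {b : ℕ} (hb : 2 ≤ b) {t : ℕ} (ht : 1 ≤ t) {ξ : ℝ} (hirr : Irrational ξ) (n : ℕ)
    (F : ℕ → ℝ) (hF : ∀ s < t, F ((n - s) / t) ≤
      tot (XX (b ^ t) (Int.fract ((b : ℝ) ^ s * ξ))) ((n - s) / t)) (htn : t ≤ n) :
    ∑ s ∈ range t, F ((n - s) / t) ≤ wins b ξ t n := by
  have hy : ∀ s, 0 < Int.fract ((b : ℝ) ^ s * ξ) ∧ Int.fract ((b : ℝ) ^ s * ξ) < 1 := by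
    intro s
    refine ⟨lt_of_le_of_ne (Int.fract_nonneg _) ?_, Int.fract_lt_one _⟩
    have h1 : Irrational (((b ^ s : ℕ) : ℝ) * ξ) := hirr.natCast_mul (by positivity)
    have h2 : Irrational (Int.fract ((b : ℝ) ^ s * ξ)) := by
      have h3 : Int.fract ((b : ℝ) ^ s * ξ) = (b : ℝ) ^ s * ξ - (⌊(b : ℝ) ^ s * ξ⌋ : ℤ) := rfl
      rw [h3]
      push_cast at h1
      exact h1.sub_intCast _
    exact Ne.symm h2.ne_zero
  have h1 : ∑ s ∈ range t, F ((n - s) / t) ≤ ∑ s ∈ range t,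
      (((range ((n - s) / t)).filter
        (fun j => x (b ^ t) (Int.fract ((b : ℝ) ^ s * ξ)) (j + 1) ≠ 0)).card : ℝ) := by
    refine sum_le_sum fun s hs => ?_
    rw [← tot_eq_card _ _ (hy s).1 (hy s).2]
    exact hF s (mem_range.1 hs)
  refine h1.trans ?_
  have h2 : ∑ s ∈ range t, ((range ((n - s) / t)).filter
        (fun j => x (b ^ t) (Int.fract ((b : ℝ) ^ s * ξ)) (j + 1) ≠ 0)).card ≤ wins b ξ t n := by
    rw [← card_sigma]
    unfold wins
    refine card_le_card_of_injOn (fun p : (Σ _ : ℕ, ℕ) => p.1 + t * p.2 + 1) ?_ ?_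
    · intro p hp
      simp only [coe_sigma, Set.mem_sigma_iff, mem_coe, mem_range, mem_filter] at hp
      simp only [coe_filter, Set.mem_ofPred_eq, mem_Icc]
      obtain ⟨h3, h4, h5⟩ := hp
      refine ⟨⟨by omega, ?_⟩, ?_⟩
      · have h6 : t * (p.2 + 1) ≤ n - p.1 := by
          calc t * (p.2 + 1) ≤ t * ((n - p.1) / t) := Nat.mul_le_mul_left _ (by omega)
            _ ≤ n - p.1 := Nat.mul_div_le _ _
        rw [mul_add, mul_one] at h6
        omega
      · rw [ne_eq, block hb ht p.1 p.2] at h5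
        push Not at h5
        obtain ⟨i, hi, h6⟩ := h5
        exact ⟨i, hi, h6⟩
    · intro p hp p' hp' h
      simp only [coe_sigma, Set.mem_sigma_iff, mem_coe, mem_range] at hp hp'
      simp only at h
      have h3 : p.1 + t * p.2 = p'.1 + t * p'.2 := by omega
      have h4 : (p.1 + t * p.2) % t = (p'.1 + t * p'.2) % t := by rw [h3]
      rw [Nat.add_mul_mod_self_left, Nat.add_mul_mod_self_left, Nat.mod_eq_of_lt hp.1,
        Nat.mod_eq_of_lt hp'.1] at h4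
      have h5 : t * p.2 = t * p'.2 := by omega
      have h6 : p.2 = p'.2 := Nat.eq_of_mul_eq_mul_left (by omega) h5
      obtain ⟨a, c⟩ := p
      obtain ⟨a', c'⟩ := p'
      simp only at h4 h6
      rw [h4, h6]
  exact_mod_cast h2

/-- the arithmetic at the end -/
lemma wins_final {b : ℕ} (hb : 2 ≤ b) {t : ℕ} (ht : 1 ≤ t) {ξ : ℝ} (hirr : Irrational ξ) {g : ℝ}
    (hg : 0 ≤ g) (n0 : ℕ)
    (h : ∀ s < t, ∀ N : ℕ, n0 ≤ N → 11252 / 10000 * (g * (N : ℝ)) ≤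
      tot (XX (b ^ t) (Int.fract ((b : ℝ) ^ s * ξ))) N ^ 2) (n : ℕ)
    (hn : (n0 + 20000) * t ≤ n) :
    Real.sqrt (9 * g * t * n / 8) ≤ wins b ξ t n := by
  have htR : (1 : ℝ) ≤ t := by exact_mod_cast ht
  have hnR : ((n0 : ℝ) + 20000) * t ≤ n := by exact_mod_cast hn
  have hn00 : (0 : ℝ) ≤ n0 := Nat.cast_nonneg _
  have htn : t ≤ n := le_trans (by nlinarith) hn
  set c : ℝ := Real.sqrt (9 * g * n / (8 * t)) with hc
  have key : ∀ s < t, c ≤ tot (XX (b ^ t) (Int.fract ((b : ℝ) ^ s * ξ))) ((n - s) / t) := by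
    intro s hs
    have hN : n0 ≤ (n - s) / t := by
      rw [Nat.le_div_iff_mul_le (by omega)]
      have : n0 * t + 20000 * t ≤ n := by rw [← add_mul]; exact hn
      omega
    have h1 := h s hs _ hN
    have h2 : (0 : ℝ) ≤ tot (XX (b ^ t) (Int.fract ((b : ℝ) ^ s * ξ))) ((n - s) / t) :=
      tot_nonneg XX_nonneg _
    rw [hc, Real.sqrt_le_left h2]
    refine le_trans ?_ h1
    have h3 : (n : ℝ) ≤ t * (((n - s) / t : ℕ) : ℝ) + 2 * t := by
      have h4 : n - s < t * ((n - s) / t) + t := Nat.lt_mul_div_succ _ (by omega)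
      have h5 : n ≤ t * ((n - s) / t) + 2 * t := by omega
      exact_mod_cast h5
    rw [div_le_iff₀ (by linarith)]
    set N : ℝ := (((n - s) / t : ℕ) : ℝ) with hNd
    have h4 : 9 / 8 * (n : ℝ) ≤ 11252 / 10000 * (t * N) := by
      have h6 : 20000 * (t : ℝ) ≤ n := by nlinarith
      linarith
    have h5 := mul_le_mul_of_nonneg_left h4 hg
    nlinarith
  have h1 := wins_ge hb ht hirr n (fun _ => c) (fun s hs => key s hs) htn
  rw [sum_const, card_range, nsmul_eq_mul] at h1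
  refine le_trans (le_of_eq ?_) h1
  rw [hc, ← Real.sqrt_sq (show (0 : ℝ) ≤ t by linarith), ← Real.sqrt_mul (sq_nonneg _),
    Real.sqrt_sq (show (0 : ℝ) ≤ t by linarith)]
  congr 1
  field_simp

end Pool.Agent.H90.NZ
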